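import Pool.Agent.Lib.MP_849e4d_lc.BV.MapF

/-!
# MP_849e4d_lc: `U` is Tukey reducible to `[P(ω)]^{<ω}`
-/

set_option autoImplicit false

namespace Pool.Agent.FinGenTukey

open Pool.Agent.StarRoth.BV Pool.Agent.MPa4e7db Pool.Agent.Lib.SymModel
open Pool.Agent.Lib.MP_849e4d_lc

section

variable {P : Type} [Preorder P] {p : P} {x y t s : BName (RO P)} {S S' : Finset (Set ℕ)}
  {X : Set ℕ}

/-- The name of a finite set of ground model sets of natural numbers. -/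
noncomputable def fsN (P : Type) [Preorder P] (S : Finset (Set ℕ)) : BName (RO P) :=
  BName.mk {X : Set ℕ // X ∈ S} (fun X => natSetN (RO P) X.1) (fun _ => ⊤)

theorem fsN_ex (h : p ∈ memB t (fsN P S)) : ∃ q ≤ p, ∃ X ∈ S, q ∈ eqB t (natSetN (RO P) X) := by
  rw [fsN, memB_mk] at h
  obtain ⟨q, hq, X, h1⟩ := Fr.iSup_ex h
  exact ⟨q, hq, X.1, X.2, h1.2⟩

theorem fsN_mk (hX : X ∈ S) (h : p ∈ eqB t (natSetN (RO P) X)) : p ∈ memB t (fsN P S) := by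
  rw [fsN, memB_mk]
  exact Fr.iSup_mk (⟨X, hX⟩ : {X : Set ℕ // X ∈ S}) ⟨RO.mem_top p, h⟩

theorem fsN_iff : p ∈ memB (natSetN (RO P) X) (fsN P S) ↔ X ∈ S := by
  constructor
  · intro h
    obtain ⟨q, _, Y, hY, h1⟩ := fsN_ex h
    rw [Fr.natSet_eq h1]
    exact hY
  · intro h
    exact fsN_mk h (Fr.refl _ _)

theorem fsN_inj (h : p ∈ eqB (fsN P S) (fsN P S')) : S = S' := by
  ext X
  constructor
  · intro hX
    exact fsN_iff.1 (Fr.mem_right h (fsN_iff.2 hX))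
  · intro hX
    exact fsN_iff.1 (Fr.mem_right (Fr.symm h) (fsN_iff.2 hX))

/-- The name of `[P(ω)]^{<ω}`. -/
noncomputable def topN (P : Type) [Preorder P] : BName (RO P) :=
  BName.mk (Finset (Set ℕ)) (fsN P) (fun _ => ⊤)

theorem topN_ex (h : p ∈ memB t (topN P)) : ∃ q ≤ p, ∃ S, q ∈ eqB t (fsN P S) := by
  rw [topN, memB_mk] at h
  obtain ⟨q, hq, S, h1⟩ := Fr.iSup_ex h
  exact ⟨q, hq, S, h1.2⟩

theorem topN_mk (S : Finset (Set ℕ)) (h : p ∈ eqB t (fsN P S)) : p ∈ memB t (topN P) := by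
  rw [topN, memB_mk]
  exact Fr.iSup_mk S ⟨RO.mem_top p, h⟩

theorem finFam_of_eq (h : p ∈ eqB s (fsN P S)) : p ∈ isFinFamB s omegaN := by
  classical
  refine ⟨RO.mem_iInf.2 fun x => RO.mem_himp.2 fun q hq hx => Fr.dense fun q' hq' => ?_, ?_⟩
  · obtain ⟨r, hr, X, _, hX⟩ := fsN_ex (Fr.mem_right (Fr.down h (hq'.trans hq)) (Fr.down hx hq'))
    exact ⟨r, hr, Fr.sub_trans (Fr.sub_of_eq hX) (Fr.natSet_sub_omega r X)⟩
  · let e := S.equivFin
    refine Fr.iSup_mk (natN S.card) ⟨Fr.omega_mk _ (Fr.refl _ _), ?_⟩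
    let j : BName (RO P) := graphN (ι := {X : Set ℕ // X ∈ S}) (fun X => natSetN (RO P) X.1)
      (fun X => natN (e X : ℕ))
    have hrel : ∀ (q : P) (a b : BName (RO P)), q ∈ relB j a b →
        ∃ r ≤ q, ∃ X : {X : Set ℕ // X ∈ S}, r ∈ eqB a (natSetN (RO P) X.1) ∧
          r ∈ eqB b (natN (e X : ℕ)) := by
      intro q a b h
      rw [relB_graphN] at h
      obtain ⟨r, hr, X, h1⟩ := Fr.iSup_ex h
      exact ⟨r, hr, X, h1.1, h1.2⟩
    have hrel' : ∀ (q : P) (a b : BName (RO P)) (X : {X : Set ℕ // X ∈ S}),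
        q ∈ eqB a (natSetN (RO P) X.1) → q ∈ eqB b (natN (e X : ℕ)) → q ∈ relB j a b := by
      intro q a b X h1 h2
      rw [relB_graphN]
      exact Fr.iSup_mk X ⟨h1, h2⟩
    refine Fr.iSup_mk j ⟨⟨?_, ?_⟩, ?_⟩
    · refine Fr.fun_intro ?_ ?_ ?_
      · intro z q hq hz
        change q ∈ memB z (graphN _ _) at hz
        rw [graphN, memB_mk] at hz
        obtain ⟨r, hr, X, h1⟩ := Fr.iSup_ex hz
        refine ⟨r, hr, natSetN (RO P) X.1, natN (e X : ℕ), ?_, h1.2⟩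
        exact Fr.mem_right (Fr.symm (Fr.down h (hr.trans hq))) (fsN_iff.2 X.2)
      · intro x q hq hx
        obtain ⟨r, hr, X, hX, h1⟩ := fsN_ex (Fr.mem_right (Fr.down h hq) hx)
        exact ⟨r, hr, natN (e ⟨X, hX⟩ : ℕ), hrel' r _ _ ⟨X, hX⟩ h1 (Fr.refl _ _)⟩
      · intro x y y' q _ h1 h2
        refine Fr.dense fun q' hq' => ?_
        obtain ⟨r, hr, X, h3, h4⟩ := hrel q' _ _ (Fr.down h1 hq')
        obtain ⟨r', hr', X', h5, h6⟩ := hrel r _ _ (Fr.down h2 (hr.trans hq'))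
        have h7 : X = X' := Subtype.ext (Fr.natSet_eq (Fr.trans (Fr.symm (Fr.down h3 hr')) h5))
        subst h7
        exact ⟨r', hr'.trans hr, Fr.trans (Fr.down h4 hr') (Fr.symm h6)⟩
    · refine RO.mem_iInf.2 fun a => RO.mem_iInf.2 fun b => RO.mem_himp.2 fun q _ hq =>
        Fr.dense fun q' hq' => ?_
      obtain ⟨r, hr, X, -, h4⟩ := hrel q' _ _ (Fr.down hq hq')
      exact ⟨r, hr, Fr.mem_left (Fr.symm h4) (Fr.top (memB_natN_lt (e X).2) r)⟩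
    · refine RO.mem_iInf.2 fun a => RO.mem_iInf.2 fun a' => RO.mem_iInf.2 fun b =>
        RO.mem_himp.2 fun q _ hq => Fr.dense fun q' hq' => ?_
      obtain ⟨r, hr, X, h3, h4⟩ := hrel q' _ _ (Fr.down hq.1 hq')
      obtain ⟨r', hr', X', h5, h6⟩ := hrel r _ _ (Fr.down hq.2 (hr.trans hq'))
      have h7 : (e X : ℕ) = (e X' : ℕ) := Fr.nat_inj (Fr.trans (Fr.symm (Fr.down h4 hr')) h6)
      have h8 : X = X' := e.injective (Fin.ext h7)
      subst h8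
      exact ⟨r', hr'.trans hr, Fr.trans (Fr.down h3 hr') (Fr.symm h5)⟩

theorem eq_of_finFam (hP : CtblClosed P) (h : p ∈ isFinFamB s omegaN) :
    ∃ q ≤ p, ∃ S, q ∈ eqB s (fsN P S) := by
  classical
  obtain ⟨q0, hq0, k, hk, hle⟩ := Fr.iSup_ex h.2
  obtain ⟨q1, hq1, j, ⟨⟨hj1, hj2⟩, hj3⟩⟩ := Fr.iSup_ex hle
  obtain ⟨q2, hq2, n, hn⟩ := Fr.omega_ex (Fr.down hk hq1)
  have hsub : ∀ x, ∀ r ≤ p, r ∈ memB x s → r ∈ subB x omegaN := fun x r hr hx =>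
    Fr.himp_mp (Fr.down (RO.mem_iInf.1 h.1 x) hr) hx
  have hstep : ∀ m : ℕ, ∃ r ≤ q2, ∃ S : Finset (Set ℕ),
      (∀ X ∈ S, r ∈ memB (natSetN (RO P) X) s) ∧
      ∀ i < m, (∃ X ∈ S, r ∈ relB j (natSetN (RO P) X) (natN i)) ∨
        r ∈ (⨆ x, memB x s ⊓ relB j x (natN i))ᶜ := by
    intro m
    induction m with
    | zero => exact ⟨q2, le_rfl, ∅, fun X hX => absurd hX (Finset.notMem_empty X),
        fun i hi => absurd hi (Nat.not_lt_zero i)⟩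
    | succ m ih =>
      obtain ⟨r, hr, S, h1, h2⟩ := ih
      obtain ⟨r1, hr1, h3⟩ := Fr.decide (⨆ x, memB x s ⊓ relB j x (natN m)) r
      rcases h3 with h3 | h3
      · obtain ⟨r2, hr2, x, hx, hxj⟩ := Fr.iSup_ex h3
        have hr2p : r2 ≤ p := hr2.trans (hr1.trans (hr.trans (hq2.trans (hq1.trans hq0))))
        obtain ⟨r3, hr3, X, hX⟩ := hP.real (hsub x r2 hr2p hx)
        refine ⟨r3, hr3.trans (hr2.trans (hr1.trans hr)), insert X S, ?_, ?_⟩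
        · intro Y hY
          rcases Finset.mem_insert.1 hY with rfl | hY
          · exact Fr.mem_left hX (Fr.down hx hr3)
          · exact Fr.down (h1 Y hY) (hr3.trans (hr2.trans hr1))
        · intro i hi
          rcases Nat.lt_succ_iff_lt_or_eq.1 hi with hi | rfl
          · rcases h2 i hi with ⟨Y, hY, h4⟩ | h4
            · exact Or.inl ⟨Y, Finset.mem_insert_of_mem hY, Fr.down h4
                (hr3.trans (hr2.trans hr1))⟩
            · exact Or.inr (Fr.down h4 (hr3.trans (hr2.trans hr1)))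
          · exact Or.inl ⟨X, Finset.mem_insert_self _ _, Fr.rel_left hX (Fr.down hxj hr3)⟩
      · refine ⟨r1, hr1.trans hr, S, fun Y hY => Fr.down (h1 Y hY) hr1, ?_⟩
        intro i hi
        rcases Nat.lt_succ_iff_lt_or_eq.1 hi with hi | rfl
        · rcases h2 i hi with ⟨Y, hY, h4⟩ | h4
          · exact Or.inl ⟨Y, hY, Fr.down h4 hr1⟩
          · exact Or.inr (Fr.down h4 hr1)
        · exact Or.inr h3
  obtain ⟨r, hr, S, h1, h2⟩ := hstep n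
  refine ⟨r, hr.trans (hq2.trans (hq1.trans hq0)), S, ?_⟩
  refine Fr.ext (fun z a ha hz => Fr.dense fun a' ha' => ?_)
    (fun z a ha hz => Fr.dense fun a' ha' => ?_)
  · have ha1 : a' ≤ q1 := ha'.trans (ha.trans (hr.trans hq2))
    obtain ⟨b, hb, y, hy⟩ := Fr.iSup_ex (Fr.fun_total (Fr.down hj1 ha1) (Fr.down hz ha'))
    have hyk : b ∈ memB y k := Fr.himp_mp
      (Fr.down (RO.mem_iInf.1 (RO.mem_iInf.1 hj2 _) _) (hb.trans ha1)) hy
    have hyn : b ∈ memB y (natSetN (RO P) (Set.Iio n)) :=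
      Fr.mem_right (Fr.trans (Fr.down hn (hb.trans (ha'.trans (ha.trans hr)))) (Fr.natN_eq _ _)) hyk
    obtain ⟨c, hc, i, hi, hyi⟩ := Fr.natSet_ex hyn
    refine ⟨c, hc.trans hb, ?_⟩
    have hcr : c ≤ r := hc.trans (hb.trans (ha'.trans ha))
    have hzi : c ∈ relB j z (natN i) := Fr.rel_right hyi (Fr.down hy hc)
    rcases h2 i hi with ⟨X, hX, h4⟩ | h4
    · refine fsN_mk hX ?_
      exact Fr.himp_mp (Fr.down (RO.mem_iInf.1 (RO.mem_iInf.1 (RO.mem_iInf.1 hj3 _) _) _)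
        (hc.trans (hb.trans ha1))) ⟨hzi, Fr.down h4 hcr⟩
    · exact (Fr.compl_mp (Fr.down h4 hcr)
        (Fr.iSup_mk z ⟨Fr.down hz (hc.trans (hb.trans ha')), hzi⟩)).elim
  · obtain ⟨b, hb, X, hX, hzX⟩ := fsN_ex (Fr.down hz ha')
    exact ⟨b, hb, Fr.mem_left (Fr.symm hzX) (Fr.down (h1 X hX) (hb.trans (ha'.trans ha)))⟩

theorem topN_isTop (hP : CtblClosed P) (p : P) : p ∈ isTopB (topN P) omegaN := by
  refine RO.mem_iInf.2 fun s => Fr.mem_iffB.2 fun q _ => ⟨fun h => Fr.dense fun q' hq' => ?_,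
    fun h => Fr.dense fun q' hq' => ?_⟩
  · obtain ⟨r, hr, S, hS⟩ := topN_ex (Fr.down h hq')
    exact ⟨r, hr, finFam_of_eq hS⟩
  · obtain ⟨r, hr, S, hS⟩ := eq_of_finFam hP (Fr.down h hq')
    exact ⟨r, hr, topN_mk S hS⟩

end

variable {Λ : Type} {o : Λ} {p : Cond Λ o} {S : Finset (Set ℕ)}

open Classical in
/-- The value `h(S) = ⋂ {X ∈ S : X ∈ U}`. -/
noncomputable def hvN (Λ : Type) (o : Λ) (S : Finset (Set ℕ)) : BName (RO (Cond Λ o)) :=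
  setN (fun n => ⨅ X : {X : Set ℕ // X ∈ S}, zB X.1 ⇨ (if n ∈ X.1 then ⊤ else ⊥))

theorem hvN_ground (p : Cond Λ o) (S : Finset (Set ℕ)) :
    ∃ q ≤ p, ∃ Y ∈ q.Z, q ∈ eqB (hvN Λ o S) (natSetN _ Y) := by
  classical
  have hstep : ∀ S' : Finset (Set ℕ), ∃ q ≤ p, ∀ X ∈ S', X ∈ q.Z ∨ Xᶜ ∈ q.Z := by
    intro S'
    induction S' using Finset.induction_on with
    | empty => exact ⟨p, le_rfl, fun X hX => absurd hX (Finset.notMem_empty X)⟩
    | insert X S' _ ih =>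
      obtain ⟨q, hq, h⟩ := ih
      obtain ⟨r, hr, -, h'⟩ := q.exists_decide X
      refine ⟨r, hr.trans hq, fun Y hY => ?_⟩
      rcases Finset.mem_insert.1 hY with rfl | hY
      · exact h'
      · exact (h Y hY).imp (fun h => hr.2.2 h) (fun h => hr.2.2 h)
  obtain ⟨q, hq, h⟩ := hstep S
  refine ⟨q, hq, ⋂ X ∈ S.filter (fun X => X ∈ q.Z), X, ?_, ?_⟩
  · exact (Filter.biInter_finset_mem _).2 (fun X hX => (Finset.mem_filter.1 hX).2)
  · refine Fr.eq_natSet_iff ?_ ?_ ?_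
    · exact Fr.of_le (U := ⊤) (fun _ _ => subB_setN_omegaN _ _) (RO.mem_top q)
    · intro n hn
      rw [hvN, memB_natN_setN]
      refine RO.mem_iInf.2 fun X => RO.mem_himp.2 fun r hr hX => ?_
      have h1 : X.1 ∈ q.Z := by
        rcases h X.1 X.2 with h1 | h1
        · exact h1
        · obtain ⟨s, hs, h2⟩ := zB_ex hX
          exact (Z_disj h2 ((hs.trans hr).2.2 h1)).elim
      have h2 : n ∈ X.1 := (Set.mem_iInter₂.1 hn) X.1 (Finset.mem_filter.2 ⟨X.2, h1⟩)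
      rw [if_pos h2]
      exact RO.mem_top r
    · intro n hn
      rw [hvN, memB_natN_setN]
      refine RO.mem_compl.2 fun r hr hr' => ?_
      simp only [Set.mem_iInter, not_forall] at hn
      obtain ⟨X, hX, hnX⟩ := hn
      obtain ⟨hXS, hXZ⟩ := Finset.mem_filter.1 hX
      have h1 := Fr.himp_mp (RO.mem_iInf.1 hr' ⟨X, hXS⟩) (Fr.down (zB_mk hXZ) hr)
      rw [if_neg hnX] at h1
      exact RO.notMem_bot r h1

/-- The name of the cofinal map `h : [P(ω)]^{<ω} → U`. -/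
noncomputable def hN (Λ : Type) (o : Λ) : BName (RO (Cond Λ o)) :=
  graphN (ι := Finset (Set ℕ)) (fsN (Cond Λ o)) (hvN Λ o)

theorem hN_ex {x y : BName (RO (Cond Λ o))} (h : p ∈ relB (hN Λ o) x y) :
    ∃ q ≤ p, ∃ S, q ∈ eqB x (fsN _ S) ∧ q ∈ eqB y (hvN Λ o S) := by
  rw [hN, relB_graphN] at h
  obtain ⟨q, hq, S, h1⟩ := Fr.iSup_ex h
  exact ⟨q, hq, S, h1.1, h1.2⟩

theorem hN_mk {x y : BName (RO (Cond Λ o))} (S : Finset (Set ℕ)) (h1 : p ∈ eqB x (fsN _ S))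
    (h2 : p ∈ eqB y (hvN Λ o S)) : p ∈ relB (hN Λ o) x y := by
  rw [hN, relB_graphN]
  exact Fr.iSup_mk S ⟨h1, h2⟩

theorem hN_into (p : Cond Λ o) : p ∈ isFunIntoB (hN Λ o) (topN _) (uN Λ o) := by
  refine Fr.into_iff.2 ⟨Fr.fun_intro ?_ ?_ ?_, fun x y q _ h => Fr.dense fun q' hq' => ?_⟩
  · intro z q _ hz
    rw [hN, graphN, memB_mk] at hz
    obtain ⟨r, hr, S, h1⟩ := Fr.iSup_ex hz
    exact ⟨r, hr, fsN _ S, hvN Λ o S, topN_mk S (Fr.refl _ _), h1.2⟩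
  · intro x q _ hx
    obtain ⟨r, hr, S, h1⟩ := topN_ex hx
    exact ⟨r, hr, hvN Λ o S, hN_mk S h1 (Fr.refl _ _)⟩
  · intro x y y' q _ h1 h2
    refine Fr.dense fun q' hq' => ?_
    obtain ⟨r, hr, S, h3, h4⟩ := hN_ex (Fr.down h1 hq')
    obtain ⟨r', hr', S', h5, h6⟩ := hN_ex (Fr.down h2 (hr.trans hq'))
    have h7 : S = S' := fsN_inj (Fr.trans (Fr.symm (Fr.down h3 hr')) h5)
    subst h7
    exact ⟨r', hr'.trans hr, Fr.trans (Fr.down h4 hr') (Fr.symm h6)⟩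
  · obtain ⟨r, hr, S, -, h4⟩ := hN_ex (Fr.down h hq')
    obtain ⟨s, hs, Y, hY, h5⟩ := hvN_ground r S
    exact ⟨s, hs.trans hr, pN_mk Y (zB_mk hY) (Fr.trans (Fr.down h4 hs) h5)⟩

theorem belowTop_mem (p : Cond Λ o) : p ∈ belowTopB (uN Λ o) omegaN := by
  classical
  refine Fr.iSup_mk (topN _) (Fr.iSup_mk (hN Λ o) ⟨topN_isTop cond_closed p, hN_into p, ?_⟩)
  refine RO.mem_iInf.2 fun D => RO.mem_himp.2 fun q _ hD => RO.mem_iInf.2 fun x =>
    RO.mem_himp.2 fun q1 hq1 hx => Fr.dense fun q2 hq2 => ?_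
  obtain ⟨r, hr, X, hX, hxX⟩ := pN_ex (Fr.down hx hq2)
  have hrq : r ≤ q := hr.trans (hq2.trans hq1)
  have h1 := Fr.himp_mp (Fr.down (RO.mem_iInf.1 hD.2 (fsN _ {X})) hrq)
    (topN_mk {X} (Fr.refl _ _))
  obtain ⟨r1, hr1, t, htD, hXt⟩ := Fr.iSup_ex h1
  obtain ⟨r2, hr2, S, hS⟩ := topN_ex (Fr.sub_mp (Fr.down hD.1 (hr1.trans hrq)) htD)
  have hXS : X ∈ S := by
    refine fsN_iff.1 (Fr.mem_right hS (Fr.sub_mp (Fr.down hXt hr2) ?_))
    exact fsN_iff.2 (Finset.mem_singleton_self X)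
  refine ⟨r2, hr2.trans (hr1.trans hr), Fr.iSup_mk t (Fr.iSup_mk (hvN Λ o S)
    ⟨Fr.down htD hr2, hN_mk S hS (Fr.refl _ _), ?_⟩)⟩
  refine Fr.sub_congr (Fr.refl _ _) (Fr.symm (Fr.down hxX (hr2.trans hr1))) ?_
  refine Fr.sub_iff.2 fun z a ha hz => Fr.dense fun a' ha' => ?_
  have hz' := Fr.down hz ha'
  rw [hvN, memB_setN] at hz'
  obtain ⟨c, hc, n, h2, h3⟩ := Fr.iSup_ex hz'
  refine ⟨c, hc, Fr.mem_left (Fr.symm h3) (Fr.natSet_iff.2 ?_)⟩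
  by_contra hnX
  have h4 := Fr.himp_mp (RO.mem_iInf.1 h2 ⟨X, hXS⟩)
    (Fr.down hX (hc.trans (ha'.trans (ha.trans (hr2.trans hr1)))))
  rw [if_neg hnX] at h4
  exact RO.notMem_bot c h4

end Pool.Agent.FinGenTukey
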