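import Pool.Agent.Lib.MP_a1c723_lc.BV.Internal

/-!
# MP_849e4d_lc: the notions of the question inside a model of set theory

All notions below are *internal* to an arbitrary structure `(M, ∈)`: a type `M` with a binary
relation, written `x ∈ a` through an arbitrary instance of `Membership M M`. All quantifiers run
over the elements of `M`. The basic notions (`SubIn`, `IsOmegaIn`, `RelIn f x y`, meaning
`(x, y) ∈ f`, `IsFunIntoIn`, `CardLeIn`) are those of `MP_a1c723_lc.BV.Internal`. The variable `w`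
stands for `ω`.
-/

set_option autoImplicit false

namespace Pool.Agent.FinGenTukey

open Pool.Agent.StarRoth.BV

variable {M : Type} [Membership M M]

/-- `U` is an ultrafilter on the set `w`. -/
def IsUltraIn (U w : M) : Prop :=
  (∀ x : M, x ∈ U → SubIn x w) ∧ w ∈ U ∧ (∀ e : M, (∀ t : M, t ∉ e) → e ∉ U) ∧
  (∀ x y : M, x ∈ U ∧ SubIn x y ∧ SubIn y w → y ∈ U) ∧
  (∀ x y z : M, x ∈ U ∧ y ∈ U ∧ (∀ t : M, t ∈ z ↔ t ∈ x ∧ t ∈ y) → z ∈ U) ∧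
  (∀ x y : M, SubIn x w ∧ (∀ t : M, t ∈ y ↔ t ∈ w ∧ t ∉ x) → x ∈ U ∨ y ∈ U)

/-- `C` is a cofinal subset of `(U, ⊇)`. -/
def IsCofIn (C U : M) : Prop :=
  SubIn C U ∧ ∀ x : M, x ∈ U → ∃ y : M, y ∈ C ∧ SubIn y x

/-- `f : U → V` is monotone and maps cofinal subsets of `(U, ⊇)` to cofinal subsets of
`(V, ⊇)`. -/
def IsMonCofIn (f U V : M) : Prop :=
  IsFunIntoIn f U V ∧
  (∀ x y a b : M, RelIn f x a ∧ RelIn f y b ∧ SubIn y x → SubIn b a) ∧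
  ∀ C : M, IsCofIn C U → ∀ z : M, z ∈ V → ∃ y b : M, y ∈ C ∧ RelIn f y b ∧ SubIn b z

/-- `F = [ω]^{<ω}`: the members of `F` are the bounded subsets of `w = ω`, that is the sets that
are included in some `k ∈ ω`. -/
def IsFinSetIn (F w : M) : Prop := ∀ s : M, s ∈ F ↔ ∃ k : M, k ∈ w ∧ SubIn s k

/-- `g : [ω]^{<ω} → [ω]^{<ω}` is monotone: `s ⊆ t` implies `g(s) ⊆ g(t)`. -/
def IsMonFinIn (g w : M) : Prop :=
  ∃ F : M, IsFinSetIn F w ∧ IsFunIntoIn g F F ∧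
    ∀ s t a b : M, RelIn g s a ∧ RelIn g t b ∧ SubIn s t → SubIn a b

/-- `a = ⋃_{k ∈ ω} g(x ∩ k)`. -/
def IsUnionIn (a g x w : M) : Prop :=
  ∀ m : M, m ∈ a ↔ ∃ k s b : M, k ∈ w ∧ (∀ t : M, t ∈ s ↔ t ∈ x ∧ t ∈ k) ∧ RelIn g s b ∧ m ∈ b

/-- `U` has finitely generated Tukey reductions: for every ultrafilter `V` on `ω` and every
monotone cofinal `f : U → V` there are a cofinal `C ⊆ U` and a monotone
`g : [ω]^{<ω} → [ω]^{<ω}` with `f(x) = ⋃_{k ∈ ω} g(x ∩ k)` for every `x ∈ C`. -/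
def FinGenIn (U w : M) : Prop :=
  ∀ V f : M, IsUltraIn V w ∧ IsMonCofIn f U V →
    ∃ C g : M, IsCofIn C U ∧ IsMonFinIn g w ∧
      ∀ x a : M, x ∈ C ∧ RelIn f x a → IsUnionIn a g x w

/-- `s` is a finite set of subsets of `w = ω`: its members are subsets of `w` and it injects into
some `k ∈ w`. -/
def IsFinFamIn (s w : M) : Prop :=
  (∀ x : M, x ∈ s → SubIn x w) ∧ ∃ k : M, k ∈ w ∧ CardLeIn s k

/-- `T = [P(ω)]^{<ω}`, the set of all finite sets of subsets of `w = ω`. Ordered by `⊆` it is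
(a copy of) `([𝔠]^{<ω}, ⊆)`. -/
def IsTopIn (T w : M) : Prop := ∀ s : M, s ∈ T ↔ IsFinFamIn s w

/-- `D` is a cofinal subset of `(T, ⊆)`. -/
def IsCofTopIn (D T : M) : Prop :=
  SubIn D T ∧ ∀ s : M, s ∈ T → ∃ t : M, t ∈ D ∧ SubIn s t

/-- `(U, ⊇) ≤_T ([P(ω)]^{<ω}, ⊆)`: some map `h : [P(ω)]^{<ω} → U` maps cofinal sets to cofinal
sets. -/
def BelowTopIn (U w : M) : Prop :=
  ∃ T h : M, IsTopIn T w ∧ IsFunIntoIn h T U ∧
    ∀ D : M, IsCofTopIn D T → ∀ x : M, x ∈ U → ∃ t b : M, t ∈ D ∧ RelIn h t b ∧ SubIn b x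

/-- `([P(ω)]^{<ω}, ⊆) ≤_T (U, ⊇)`: some map `h : U → [P(ω)]^{<ω}` maps cofinal sets to cofinal
sets. -/
def AboveTopIn (U w : M) : Prop :=
  ∃ T h : M, IsTopIn T w ∧ IsFunIntoIn h U T ∧
    ∀ C : M, IsCofIn C U → ∀ s : M, s ∈ T → ∃ y t : M, y ∈ C ∧ RelIn h y t ∧ SubIn s t

/-- `V` is the set of all `z ⊆ ω` that include `⋃_{k ∈ ω} g(x ∩ k)` for some `x ∈ U`. -/
def GeneratesIn (g U V w : M) : Prop :=
  ∀ z : M, z ∈ V ↔ SubIn z w ∧ ∃ x a : M, x ∈ U ∧ IsUnionIn a g x w ∧ SubIn a z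

/-- Some ultrafilter `V` on `ω` that is Tukey reducible to `U` by a monotone cofinal map is not
generated by `{⋃_{k ∈ ω} g(x ∩ k) : x ∈ U}` for any monotone `g : [ω]^{<ω} → [ω]^{<ω}`. -/
def NotGenIn (U w : M) : Prop :=
  ∃ V f : M, IsUltraIn V w ∧ IsMonCofIn f U V ∧
    ¬ ∃ g : M, IsMonFinIn g w ∧ GeneratesIn g U V w

/-- Every uncountable `A ⊆ U` has infinitely many members that include one and the same `x ∈ U`
(so `([ω₁]^{<ω}, ⊆)` is not Tukey reducible to `(U, ⊇)`). Uncountable: no injection into `ω`;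
infinite: no injection into any `k ∈ ω`. -/
def NoUncIn (U w : M) : Prop :=
  ∀ A : M, SubIn A U ∧ ¬ IsCtblIn A w →
    ∃ x : M, x ∈ U ∧ ∀ s : M, (∀ y : M, y ∈ s ↔ y ∈ A ∧ SubIn x y) →
      ¬ ∃ k : M, k ∈ w ∧ CardLeIn s k

end Pool.Agent.FinGenTukey
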