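import Pool.Agent.Lib.MP_849e4d_lc.BV.Defs
import Pool.Agent.Lib.MP_849e4d_lc.BV.Internal
import Pool.Agent.Lib.MP_a1c723_lc.BV.Formula

/-!
# MP_849e4d_lc: the counterexample as a first-order sentence
-/

set_option autoImplicit false

namespace Pool.Agent.FinGenTukey

open Pool.Agent.StarRoth.BV Pool.Agent.MPa4e7db Pool.Agent.MP_5db68c_lc

def fInter (z x y : ℕ) : Fml :=
  .all (fIff (.mem 0 (z + 1)) (.and (.mem 0 (x + 1)) (.mem 0 (y + 1))))
def fDiff (z x y : ℕ) : Fml :=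
  .all (fIff (.mem 0 (z + 1)) (.and (.mem 0 (x + 1)) (.neg (.mem 0 (y + 1)))))
def fUltra (U w : ℕ) : Fml :=
  .and (.and (.and (.and (.and
    (.all (fImp (.mem 0 (U + 1)) (fSub 0 (w + 1))))
    (.mem w U))
    (.all (fImp (fEmpty 0) (.neg (.mem 0 (U + 1))))))
    (.all (.all (fImp (.and (.and (.mem (0 + 1) (U + 1 + 1)) (fSub (0 + 1) 0)) (fSub 0 (w + 1 + 1)))
      (.mem 0 (U + 1 + 1))))))
    (.all (.all (.all (fImp (.and (.and (.mem (0 + 1 + 1) (U + 1 + 1 + 1))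
      (.mem (0 + 1) (U + 1 + 1 + 1))) (fInter 0 (0 + 1 + 1) (0 + 1))) (.mem 0 (U + 1 + 1 + 1)))))))
    (.all (.all (fImp (.and (fSub (0 + 1) (w + 1 + 1)) (fDiff 0 (w + 1 + 1) (0 + 1)))
      (fOr (.mem (0 + 1) (U + 1 + 1)) (.mem 0 (U + 1 + 1))))))
def fCof (C U : ℕ) : Fml :=
  .and (fSub C U) (.all (fImp (.mem 0 (U + 1)) (fEx (.and (.mem 0 (C + 1 + 1)) (fSub 0 (0 + 1))))))
def fMonCof (f U V : ℕ) : Fml :=
  .and (.and (fFunInto f U V)
    (.all (.all (.all (.all (fImp (.and (fRel (f + 1 + 1 + 1 + 1) (0 + 1 + 1 + 1) (0 + 1))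
      (.and (fRel (f + 1 + 1 + 1 + 1) (0 + 1 + 1) 0) (fSub (0 + 1 + 1) (0 + 1 + 1 + 1))))
      (fSub 0 (0 + 1))))))))
    (.all (fImp (fCof 0 (U + 1)) (.all (fImp (.mem 0 (V + 1 + 1))
      (fEx (fEx (.and (.mem (0 + 1) (0 + 1 + 1 + 1))
        (.and (fRel (f + 1 + 1 + 1 + 1) (0 + 1) 0) (fSub 0 (0 + 1 + 1))))))))))
def fFinSet (F w : ℕ) : Fml :=
  .all (fIff (.mem 0 (F + 1)) (fEx (.and (.mem 0 (w + 1 + 1)) (fSub (0 + 1) 0))))
def fMonFin (g w : ℕ) : Fml :=
  fEx (.and (fFinSet 0 (w + 1)) (.and (fFunInto (g + 1) 0 0)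
    (.all (.all (.all (.all (fImp (.and (fRel (g + 1 + 1 + 1 + 1 + 1) (0 + 1 + 1 + 1) (0 + 1))
      (.and (fRel (g + 1 + 1 + 1 + 1 + 1) (0 + 1 + 1) 0) (fSub (0 + 1 + 1 + 1) (0 + 1 + 1))))
      (fSub (0 + 1) 0))))))))
def fUnion (a g x w : ℕ) : Fml :=
  .all (fIff (.mem 0 (a + 1)) (fEx (fEx (fEx (.and (.mem (0 + 1 + 1) (w + 1 + 1 + 1 + 1))
    (.and (fInter (0 + 1) (x + 1 + 1 + 1 + 1) (0 + 1 + 1))
      (.and (fRel (g + 1 + 1 + 1 + 1) (0 + 1) 0) (.mem (0 + 1 + 1 + 1) 0))))))))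
def fFinGen (U w : ℕ) : Fml :=
  .all (.all (fImp (.and (fUltra (0 + 1) (w + 1 + 1)) (fMonCof 0 (U + 1 + 1) (0 + 1)))
    (fEx (fEx (.and (fCof (0 + 1) (U + 1 + 1 + 1 + 1)) (.and (fMonFin 0 (w + 1 + 1 + 1 + 1))
      (.all (.all (fImp (.and (.mem (0 + 1) (0 + 1 + 1 + 1))
        (fRel (0 + 1 + 1 + 1 + 1) (0 + 1) 0))
        (fUnion 0 (0 + 1 + 1) (0 + 1) (w + 1 + 1 + 1 + 1 + 1 + 1)))))))))))
def fFinFam (s w : ℕ) : Fml :=
  .and (.all (fImp (.mem 0 (s + 1)) (fSub 0 (w + 1))))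
    (fEx (.and (.mem 0 (w + 1)) (fCardLe (s + 1) 0)))
def fTop (T w : ℕ) : Fml := .all (fIff (.mem 0 (T + 1)) (fFinFam 0 (w + 1)))
def fCofTop (D T : ℕ) : Fml :=
  .and (fSub D T) (.all (fImp (.mem 0 (T + 1)) (fEx (.and (.mem 0 (D + 1 + 1)) (fSub (0 + 1) 0)))))
def fBelowTop (U w : ℕ) : Fml :=
  fEx (fEx (.and (fTop (0 + 1) (w + 1 + 1)) (.and (fFunInto 0 (0 + 1) (U + 1 + 1))
    (.all (fImp (fCofTop 0 (0 + 1 + 1)) (.all (fImp (.mem 0 (U + 1 + 1 + 1 + 1))
      (fEx (fEx (.and (.mem (0 + 1) (0 + 1 + 1 + 1))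
        (.and (fRel (0 + 1 + 1 + 1 + 1) (0 + 1) 0) (fSub 0 (0 + 1 + 1))))))))))))) 
def fAboveTop (U w : ℕ) : Fml :=
  fEx (fEx (.and (fTop (0 + 1) (w + 1 + 1)) (.and (fFunInto 0 (U + 1 + 1) (0 + 1))
    (.all (fImp (fCof 0 (U + 1 + 1 + 1)) (.all (fImp (.mem 0 (0 + 1 + 1 + 1))
      (fEx (fEx (.and (.mem (0 + 1) (0 + 1 + 1 + 1))
        (.and (fRel (0 + 1 + 1 + 1 + 1) (0 + 1) 0) (fSub (0 + 1 + 1) 0)))))))))))) 
def fGenerates (g U V w : ℕ) : Fml :=
  .all (fIff (.mem 0 (V + 1)) (.and (fSub 0 (w + 1)) (fEx (fEx (.and (.mem (0 + 1) (U + 1 + 1 + 1))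
    (.and (fUnion 0 (g + 1 + 1 + 1) (0 + 1) (w + 1 + 1 + 1)) (fSub 0 (0 + 1 + 1))))))))
def fNotGen (U w : ℕ) : Fml :=
  fEx (fEx (.and (fUltra (0 + 1) (w + 1 + 1)) (.and (fMonCof 0 (U + 1 + 1) (0 + 1))
    (.neg (fEx (.and (fMonFin 0 (w + 1 + 1 + 1))
      (fGenerates 0 (U + 1 + 1 + 1) (0 + 1 + 1) (w + 1 + 1 + 1))))))))
def fNoUnc (U w : ℕ) : Fml :=
  .all (fImp (.and (fSub 0 (U + 1)) (.neg (fCtbl 0 (w + 1))))
    (fEx (.and (.mem 0 (U + 1 + 1))
      (.all (fImp (.all (fIff (.mem 0 (0 + 1)) (.and (.mem 0 (0 + 1 + 1 + 1)) (fSub (0 + 1 + 1) 0))))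
        (.neg (fEx (.and (.mem 0 (w + 1 + 1 + 1 + 1)) (fCardLe (0 + 1) 0)))))))))
def fCounter : Fml :=
  fEx (fEx (.and (fOmega (0 + 1)) (.and (fUltra 0 (0 + 1)) (.and (fBelowTop 0 (0 + 1))
    (.and (.neg (fAboveTop 0 (0 + 1))) (.and (fNoUnc 0 (0 + 1))
      (.and (.neg (fFinGen 0 (0 + 1))) (fNotGen 0 (0 + 1)))))))))

section

variable {B : Type} [CompleteBooleanAlgebra B] (v : ℕ → BName B)

theorem val_fInter (z x y : ℕ) : val (fInter z x y) v = isInterB (v z) (v x) (v y) := by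
  simp only [fInter, val_all, val_iff, val_and, val_mem, push_zero, push_succ, isInterB]

theorem val_fDiff (z x y : ℕ) : val (fDiff z x y) v = isDiffB (v z) (v x) (v y) := by
  simp only [fDiff, val_all, val_iff, val_and, val_neg, val_mem, push_zero, push_succ, isDiffB]

theorem val_fUltra (U w : ℕ) : val (fUltra U w) v = isUltrafilterB (v U) (v w) := by
  simp only [fUltra, val_all, val_imp, val_or, val_and, val_neg, val_mem, val_fSub, val_fEmpty,
    val_fInter, val_fDiff, push_zero, push_succ, isUltrafilterB]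

theorem val_fCof (C U : ℕ) : val (fCof C U) v = isCofB (v C) (v U) := by
  simp only [fCof, val_all, val_ex, val_imp, val_and, val_mem, val_fSub, push_zero, push_succ,
    isCofB]

theorem val_fMonCof (f U V : ℕ) : val (fMonCof f U V) v = isMonCofB (v f) (v U) (v V) := by
  simp only [fMonCof, val_all, val_ex, val_imp, val_and, val_mem, val_fSub, val_fFunInto,
    val_fRel, val_fCof, push_zero, push_succ, isMonCofB]

theorem val_fFinSet (F w : ℕ) : val (fFinSet F w) v = isFinSetB (v F) (v w) := by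
  simp only [fFinSet, val_all, val_ex, val_iff, val_and, val_mem, val_fSub, push_zero, push_succ,
    isFinSetB]

theorem val_fMonFin (g w : ℕ) : val (fMonFin g w) v = isMonFinB (v g) (v w) := by
  simp only [fMonFin, val_all, val_ex, val_imp, val_and, val_fSub, val_fFunInto,
    val_fRel, val_fFinSet, push_zero, push_succ, isMonFinB]

theorem val_fUnion (a g x w : ℕ) : val (fUnion a g x w) v = isUnionB (v a) (v g) (v x) (v w) := by
  simp only [fUnion, val_all, val_ex, val_iff, val_and, val_mem, val_fInter,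
    val_fRel, push_zero, push_succ, isUnionB]

theorem val_fFinGen (U w : ℕ) : val (fFinGen U w) v = finGenB (v U) (v w) := by
  simp only [fFinGen, val_all, val_ex, val_imp, val_and, val_mem, val_fUltra, val_fMonCof,
    val_fCof, val_fMonFin, val_fRel, val_fUnion, push_zero, push_succ, finGenB]

theorem val_fFinFam (s w : ℕ) : val (fFinFam s w) v = isFinFamB (v s) (v w) := by
  simp only [fFinFam, val_all, val_ex, val_imp, val_and, val_mem, val_fSub, val_fCardLe,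
    push_zero, push_succ, isFinFamB]

theorem val_fTop (T w : ℕ) : val (fTop T w) v = isTopB (v T) (v w) := by
  simp only [fTop, val_all, val_iff, val_mem, val_fFinFam, push_zero, push_succ, isTopB]

theorem val_fCofTop (D T : ℕ) : val (fCofTop D T) v = isCofTopB (v D) (v T) := by
  simp only [fCofTop, val_all, val_ex, val_imp, val_and, val_mem, val_fSub, push_zero, push_succ,
    isCofTopB]

theorem val_fBelowTop (U w : ℕ) : val (fBelowTop U w) v = belowTopB (v U) (v w) := by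
  simp only [fBelowTop, val_all, val_ex, val_imp, val_and, val_mem, val_fSub, val_fTop,
    val_fFunInto, val_fCofTop, val_fRel, push_zero, push_succ, belowTopB]

theorem val_fAboveTop (U w : ℕ) : val (fAboveTop U w) v = aboveTopB (v U) (v w) := by
  simp only [fAboveTop, val_all, val_ex, val_imp, val_and, val_mem, val_fSub, val_fTop,
    val_fFunInto, val_fCof, val_fRel, push_zero, push_succ, aboveTopB]

theorem val_fGenerates (g U V w : ℕ) :
    val (fGenerates g U V w) v = generatesB (v g) (v U) (v V) (v w) := by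
  simp only [fGenerates, val_all, val_ex, val_iff, val_and, val_mem, val_fSub, val_fUnion,
    push_zero, push_succ, generatesB]

theorem val_fNotGen (U w : ℕ) : val (fNotGen U w) v = notGenB (v U) (v w) := by
  simp only [fNotGen, val_ex, val_and, val_neg, val_fUltra, val_fMonCof, val_fMonFin,
    val_fGenerates, push_zero, push_succ, notGenB]

theorem val_fNoUnc (U w : ℕ) : val (fNoUnc U w) v = noUncB (v U) (v w) := by
  simp only [fNoUnc, val_all, val_ex, val_imp, val_iff, val_and, val_neg, val_mem, val_fSub,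
    val_fCtbl, val_fCardLe, push_zero, push_succ, noUncB]

theorem val_fCounter : val fCounter v = counterB B := by
  simp only [fCounter, val_ex, val_and, val_neg, val_fOmega, val_fUltra, val_fBelowTop,
    val_fAboveTop, val_fNoUnc, val_fFinGen, val_fNotGen, push_zero, push_succ, counterB]

end

section

variable {M : Type} [Membership M M] (v : ℕ → M)

theorem sat_fInter (z x y : ℕ) :
    Sat (fInter z x y) v ↔ ∀ t : M, t ∈ v z ↔ t ∈ v x ∧ t ∈ v y := by
  simp only [fInter, sat_all, sat_iff, sat_and, sat_mem, push_zero, push_succ]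

theorem sat_fDiff (z x y : ℕ) :
    Sat (fDiff z x y) v ↔ ∀ t : M, t ∈ v z ↔ t ∈ v x ∧ t ∉ v y := by
  simp only [fDiff, sat_all, sat_iff, sat_and, sat_neg, sat_mem, push_zero, push_succ]

theorem sat_fUltra (U w : ℕ) : Sat (fUltra U w) v ↔ IsUltraIn (v U) (v w) := by
  simp only [fUltra, sat_all, sat_imp, sat_or, sat_and, sat_neg, sat_mem, sat_fSub, sat_fEmpty,
    sat_fInter, sat_fDiff, push_zero, push_succ, IsUltraIn, and_assoc]

theorem sat_fCof (C U : ℕ) : Sat (fCof C U) v ↔ IsCofIn (v C) (v U) := by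
  simp only [fCof, sat_all, sat_ex, sat_imp, sat_and, sat_mem, sat_fSub, push_zero, push_succ,
    IsCofIn]

theorem sat_fMonCof (f U V : ℕ) : Sat (fMonCof f U V) v ↔ IsMonCofIn (v f) (v U) (v V) := by
  simp only [fMonCof, sat_all, sat_ex, sat_imp, sat_and, sat_mem, sat_fSub, sat_fFunInto,
    sat_fRel, sat_fCof, push_zero, push_succ, IsMonCofIn, and_assoc]

theorem sat_fFinSet (F w : ℕ) : Sat (fFinSet F w) v ↔ IsFinSetIn (v F) (v w) := by
  simp only [fFinSet, sat_all, sat_ex, sat_iff, sat_and, sat_mem, sat_fSub, push_zero, push_succ,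
    IsFinSetIn]

theorem sat_fMonFin (g w : ℕ) : Sat (fMonFin g w) v ↔ IsMonFinIn (v g) (v w) := by
  simp only [fMonFin, sat_all, sat_ex, sat_imp, sat_and, sat_fSub, sat_fFunInto,
    sat_fRel, sat_fFinSet, push_zero, push_succ, IsMonFinIn]

theorem sat_fUnion (a g x w : ℕ) :
    Sat (fUnion a g x w) v ↔ IsUnionIn (v a) (v g) (v x) (v w) := by
  simp only [fUnion, sat_all, sat_ex, sat_iff, sat_and, sat_mem, sat_fInter,
    sat_fRel, push_zero, push_succ, IsUnionIn]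

theorem sat_fFinGen (U w : ℕ) : Sat (fFinGen U w) v ↔ FinGenIn (v U) (v w) := by
  simp only [fFinGen, sat_all, sat_ex, sat_imp, sat_and, sat_mem, sat_fUltra, sat_fMonCof,
    sat_fCof, sat_fMonFin, sat_fRel, sat_fUnion, push_zero, push_succ, FinGenIn]

theorem sat_fFinFam (s w : ℕ) : Sat (fFinFam s w) v ↔ IsFinFamIn (v s) (v w) := by
  simp only [fFinFam, sat_all, sat_ex, sat_imp, sat_and, sat_mem, sat_fSub, sat_fCardLe,
    push_zero, push_succ, IsFinFamIn]

theorem sat_fTop (T w : ℕ) : Sat (fTop T w) v ↔ IsTopIn (v T) (v w) := by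
  simp only [fTop, sat_all, sat_iff, sat_mem, sat_fFinFam, push_zero, push_succ, IsTopIn]

theorem sat_fCofTop (D T : ℕ) : Sat (fCofTop D T) v ↔ IsCofTopIn (v D) (v T) := by
  simp only [fCofTop, sat_all, sat_ex, sat_imp, sat_and, sat_mem, sat_fSub, push_zero, push_succ,
    IsCofTopIn]

theorem sat_fBelowTop (U w : ℕ) : Sat (fBelowTop U w) v ↔ BelowTopIn (v U) (v w) := by
  simp only [fBelowTop, sat_all, sat_ex, sat_imp, sat_and, sat_mem, sat_fSub, sat_fTop,
    sat_fFunInto, sat_fCofTop, sat_fRel, push_zero, push_succ, BelowTopIn]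

theorem sat_fAboveTop (U w : ℕ) : Sat (fAboveTop U w) v ↔ AboveTopIn (v U) (v w) := by
  simp only [fAboveTop, sat_all, sat_ex, sat_imp, sat_and, sat_mem, sat_fSub, sat_fTop,
    sat_fFunInto, sat_fCof, sat_fRel, push_zero, push_succ, AboveTopIn]

theorem sat_fGenerates (g U V w : ℕ) :
    Sat (fGenerates g U V w) v ↔ GeneratesIn (v g) (v U) (v V) (v w) := by
  simp only [fGenerates, sat_all, sat_ex, sat_iff, sat_and, sat_mem, sat_fSub, sat_fUnion,
    push_zero, push_succ, GeneratesIn]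

theorem sat_fNotGen (U w : ℕ) : Sat (fNotGen U w) v ↔ NotGenIn (v U) (v w) := by
  simp only [fNotGen, sat_ex, sat_and, sat_neg, sat_fUltra, sat_fMonCof, sat_fMonFin,
    sat_fGenerates, push_zero, push_succ, NotGenIn]

theorem sat_fNoUnc (U w : ℕ) : Sat (fNoUnc U w) v ↔ NoUncIn (v U) (v w) := by
  simp only [fNoUnc, sat_all, sat_ex, sat_imp, sat_iff, sat_and, sat_neg, sat_mem, sat_fSub,
    sat_fCtbl, sat_fCardLe, push_zero, push_succ, NoUncIn]

theorem sat_fCounter : Sat fCounter v ↔ ∃ w U : M, IsOmegaIn w ∧ IsUltraIn U w ∧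
    BelowTopIn U w ∧ ¬ AboveTopIn U w ∧ NoUncIn U w ∧ ¬ FinGenIn U w ∧ NotGenIn U w := by
  simp only [fCounter, sat_ex, sat_and, sat_neg, sat_fOmega, sat_fUltra, sat_fBelowTop,
    sat_fAboveTop, sat_fNoUnc, sat_fFinGen, sat_fNotGen, push_zero, push_succ]

end

end Pool.Agent.FinGenTukey
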