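import Pool.Agent.Lib.MP_849e4d_lc.BV.NotAbove

/-!
# MP_849e4d_lc: `[ω₁]^{<ω}` is not Tukey reducible to `U`
-/

set_option autoImplicit false

namespace Pool.Agent.Lib.MP_849e4d_lc

open Set Filter

/-- Descending sequences of conditions below `p0` together with sets `D ξ`, where the requirement
at stage `ξ` may depend on the sets chosen before. -/
theorem exists_desc2 {Ω : Type*} [LinearOrder Ω] [WellFoundedLT Ω]
    (hc : ∀ a : Ω, (Iio a).Countable) {Λ : Type*} {o : Λ} (p0 : Cond Λ o)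
    (R : Set (Set ℕ) → Cond Λ o → Set ℕ → Prop)
    (hR : ∀ 𝓔 : Set (Set ℕ), 𝓔.Countable → ∀ p ≤ p0, ∃ q ≤ p, ∃ D, R 𝓔 q D) :
    ∃ (S : Ω → Cond Λ o) (D : Ω → Set ℕ), (∀ a b, a ≤ b → S b ≤ S a) ∧
      ∀ ξ, S ξ ≤ p0 ∧ R (D '' Iio ξ) (S ξ) (D ξ) := by
  classical
  have hlb : ∀ 𝒞 : Set (Cond Λ o), ∃ p : Cond Λ o, 𝒞.Countable →
      (∀ a ∈ 𝒞, ∀ b ∈ 𝒞, a ≤ b ∨ b ≤ a) → ∀ c ∈ 𝒞, p ≤ c := by
    intro 𝒞
    by_cases h : 𝒞.Countable ∧ ∀ a ∈ 𝒞, ∀ b ∈ 𝒞, a ≤ b ∨ b ≤ a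
    · obtain ⟨p, hp, -⟩ := Cond.exists_inf 𝒞 h.1 h.2
      exact ⟨p, fun _ _ => hp⟩
    · exact ⟨Cond.init Λ o, fun h1 h2 => absurd ⟨h1, h2⟩ h⟩
  choose lb hlb using hlb
  have hst : ∀ (𝓔 : Set (Set ℕ)) (p : Cond Λ o), ∃ x : Cond Λ o × Set ℕ, x.1 ≤ p ∧
      (𝓔.Countable → p ≤ p0 → R 𝓔 x.1 x.2) := by
    intro 𝓔 p
    by_cases hp : 𝓔.Countable ∧ p ≤ p0
    · obtain ⟨q, hq, D, h⟩ := hR 𝓔 hp.1 p hp.2
      exact ⟨(q, D), hq, fun _ _ => h⟩
    · exact ⟨(p, ∅), le_rfl, fun h h' => absurd ⟨h, h'⟩ hp⟩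
  choose st hst1 hst2 using hst
  let T : Ω → Cond Λ o × Set ℕ := (wellFounded_lt (α := Ω)).fix
    (fun ξ prev => st (range (fun η : Iio ξ => (prev η.1 η.2).2))
      (lb (insert p0 (range (fun η : Iio ξ => (prev η.1 η.2).1)))))
  let S : Ω → Cond Λ o := fun ξ => (T ξ).1
  let D : Ω → Set ℕ := fun ξ => (T ξ).2
  have hT : ∀ ξ, T ξ = st (D '' Iio ξ) (lb (insert p0 (S '' Iio ξ))) := by
    intro ξ
    have h := (wellFounded_lt (α := Ω)).fix_eq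
      (fun ξ (prev : ∀ y, y < ξ → Cond Λ o × Set ℕ) =>
        st (range (fun η : Iio ξ => (prev η.1 η.2).2))
          (lb (insert p0 (range (fun η : Iio ξ => (prev η.1 η.2).1))))) ξ
    have h2 : range (fun η : Iio ξ => S η.1) = S '' Iio ξ := by
      ext c
      simp only [mem_range, mem_image, Subtype.exists, mem_Iio, exists_prop]
    have h3 : range (fun η : Iio ξ => D η.1) = D '' Iio ξ := by
      ext c
      simp only [mem_range, mem_image, Subtype.exists, mem_Iio, exists_prop]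
    rw [← h2, ← h3]
    exact h
  have hall : ∀ ξ, S ξ ≤ p0 ∧ ∀ η < ξ, S ξ ≤ S η := by
    intro ξ
    induction ξ using (wellFounded_lt (α := Ω)).induction with
    | _ ξ ih =>
      have h1 := hlb (insert p0 (S '' Iio ξ)) (((hc ξ).image S).insert _) (by
        rintro _ (rfl | ⟨a, ha, rfl⟩) _ (rfl | ⟨b, hb, rfl⟩)
        · exact Or.inl le_rfl
        · exact Or.inr (ih b hb).1
        · exact Or.inl (ih a ha).1
        · rcases lt_trichotomy a b with h | h | h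
          · exact Or.inr ((ih b hb).2 a h)
          · rw [h]; exact Or.inl le_rfl
          · exact Or.inl ((ih a ha).2 b h))
      have h4 : S ξ ≤ lb (insert p0 (S '' Iio ξ)) := by
        change (T ξ).1 ≤ _
        rw [hT ξ]
        exact hst1 _ _
      exact ⟨h4.trans (h1 _ (mem_insert _ _)), fun η hη => h4.trans (h1 _ (Or.inr ⟨η, hη, rfl⟩))⟩
  have hmono' : ∀ a b, a ≤ b → S b ≤ S a := by
    intro a b hab
    rcases hab.eq_or_lt with h | h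
    · rw [h]
    · exact (hall b).2 a h
  refine ⟨S, D, hmono', fun ξ => ⟨(hall ξ).1, ?_⟩⟩
  have h1 := hlb (insert p0 (S '' Iio ξ)) (((hc ξ).image S).insert _) (by
    rintro _ (rfl | ⟨a, ha, rfl⟩) _ (rfl | ⟨b, hb, rfl⟩)
    · exact Or.inl le_rfl
    · exact Or.inr (hall b).1
    · exact Or.inl (hall a).1
    · rcases le_total a b with h | h
      · exact Or.inr (hmono' a b h)
      · exact Or.inl (hmono' b a h))
  have h5 := hst2 (D '' Iio ξ) (lb (insert p0 (S '' Iio ξ))) ((hc ξ).image D)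
    (h1 _ (mem_insert _ _))
  rw [← hT ξ] at h5
  exact h5

end Pool.Agent.Lib.MP_849e4d_lc

namespace Pool.Agent.FinGenTukey

open Pool.Agent.StarRoth.BV Pool.Agent.MPa4e7db Pool.Agent.Lib.SymModel
open Pool.Agent.Lib.MP_849e4d_lc

section

variable {P : Type} [Preorder P]

/-- A name that injects into a natural number does not contain infinitely many distinct ground
model reals. -/
theorem not_small {Ω : Type} {q : P} {t : BName (RO P)} (D : Ω → Set ℕ)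
    (hD : Function.Injective D) (N : Set Ω) (hN : N.Infinite)
    (hmem : ∀ ν ∈ N, q ∈ memB (natSetN _ (D ν)) t) :
    q ∉ ⨆ k : BName (RO P), memB k omegaN ⊓ cardLeB t k := by
  classical
  intro h
  obtain ⟨q2, hq2, k, hk, hle⟩ := Fr.iSup_ex h
  obtain ⟨q3, hq3, j, hj⟩ := Fr.iSup_ex hle
  obtain ⟨q4, hq4, n, hn⟩ := Fr.omega_ex (Fr.down hk hq3)
  obtain ⟨⟨hj1, hj2⟩, hj3⟩ := hj
  have hdec : ∀ s : Finset Ω, (∀ ν ∈ s, ν ∈ N) → ∃ r ≤ q4, ∃ i : Ω → ℕ,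
      ∀ ν ∈ s, i ν < n ∧ r ∈ relB j (natSetN _ (D ν)) (natN (i ν)) := by
    intro s
    induction s using Finset.induction_on with
    | empty => exact fun _ => ⟨q4, le_rfl, fun _ => 0, fun ν hν => absurd hν (Finset.notMem_empty ν)⟩
    | insert ν s hνs ih =>
      intro hs
      obtain ⟨r, hr, i, hi⟩ := ih (fun μ hμ => hs μ (Finset.mem_insert_of_mem hμ))
      have h1 : r ∈ memB (natSetN _ (D ν)) t :=
        Fr.down (hmem ν (hs ν (Finset.mem_insert_self _ _))) (hr.trans (hq4.trans (hq3.trans hq2)))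
      obtain ⟨r1, hr1, y, hy⟩ := Fr.iSup_ex (Fr.fun_total (Fr.down hj1 (hr.trans hq4)) h1)
      have hyk : r1 ∈ memB y k := Fr.himp_mp (Fr.down (RO.mem_iInf.1 (RO.mem_iInf.1 hj2 _) _)
        (hr1.trans (hr.trans hq4))) hy
      have hyn : r1 ∈ memB y (natSetN _ (Set.Iio n)) :=
        Fr.mem_right (Fr.trans (Fr.down hn (hr1.trans hr)) (Fr.natN_eq _ _)) hyk
      obtain ⟨r2, hr2, m, hm, hym⟩ := Fr.natSet_ex hyn
      refine ⟨r2, hr2.trans (hr1.trans hr), Function.update i ν m, ?_⟩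
      intro μ hμ
      by_cases hμν : μ = ν
      · subst hμν
        rw [Function.update_self]
        exact ⟨hm, Fr.rel_right hym (Fr.down hy hr2)⟩
      · rw [Function.update_of_ne hμν]
        have h2 := hi μ ((Finset.mem_insert.1 hμ).resolve_left hμν)
        exact ⟨h2.1, Fr.down h2.2 (hr2.trans hr1)⟩
  obtain ⟨s, hs, hcard⟩ := hN.exists_subset_card_eq (n + 1)
  obtain ⟨r, hr, i, hi⟩ := hdec s (fun ν hν => hs hν)
  obtain ⟨ν, hν, μ, hμ, hne, heq⟩ := Finset.exists_ne_map_eq_of_card_lt_of_maps_to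
    (s := s) (t := Finset.range n) (f := i) (by rw [hcard, Finset.card_range]; omega)
    (fun ν hν => Finset.mem_coe.2 (Finset.mem_range.2 (hi ν hν).1))
  apply hne
  apply hD
  have h1 := (hi ν hν).2
  have h2 := (hi μ hμ).2
  rw [← heq] at h2
  exact Fr.natSet_eq (Fr.himp_mp (Fr.down (RO.mem_iInf.1 (RO.mem_iInf.1 (RO.mem_iInf.1 hj3 _) _) _)
    (hr.trans hq4)) ⟨h1, h2⟩)

/-- A name that is forced to be a subset of a countable set of ground model reals is forced to be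
countable. -/
theorem ctbl_of_sub (𝓔 : Set (Set ℕ)) (h𝓔 : 𝓔.Countable) {p : P} {A : BName (RO P)}
    (h : ∀ z, ∀ q ≤ p, q ∈ memB z A → ∃ r ≤ q, ∃ X ∈ 𝓔, r ∈ eqB z (natSetN (RO P) X)) :
    p ∈ isCtblB A omegaN := by
  have := h𝓔.to_subtype
  obtain ⟨e, he⟩ := exists_injective_nat 𝓔
  let f : BName (RO P) := BName.mk 𝓔 (fun X => opair (natSetN (RO P) X.1) (natN (e X)))
    (fun X => memB (natSetN (RO P) X.1) A)
  have hex : ∀ (q : P) (a b : BName (RO P)), q ∈ relB f a b → ∃ r ≤ q, ∃ X : 𝓔,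
      r ∈ memB (natSetN (RO P) X.1) A ∧ r ∈ eqB a (natSetN (RO P) X.1) ∧
        r ∈ eqB b (natN (e X)) := by
    intro q a b h1
    rw [relB_eq] at h1
    change q ∈ memB _ (BName.mk _ _ _) at h1
    rw [memB_mk] at h1
    obtain ⟨r, hr, X, h2, h3⟩ := Fr.iSup_ex h1
    rw [eqB_opair] at h3
    exact ⟨r, hr, X, h2, h3.1, h3.2⟩
  have hmk : ∀ (q : P) (a b : BName (RO P)) (X : 𝓔), q ∈ memB (natSetN (RO P) X.1) A →
      q ∈ eqB a (natSetN (RO P) X.1) → q ∈ eqB b (natN (e X)) → q ∈ relB f a b := by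
    intro q a b X h1 h2 h3
    rw [relB_eq]
    change q ∈ memB _ (BName.mk _ _ _)
    rw [memB_mk]
    refine Fr.iSup_mk X ⟨h1, ?_⟩
    rw [eqB_opair]
    exact ⟨h2, h3⟩
  refine Fr.iSup_mk f ⟨⟨Fr.fun_intro ?_ ?_ ?_, ?_⟩, ?_⟩
  · intro z q _ hz
    change q ∈ memB _ (BName.mk _ _ _) at hz
    rw [memB_mk] at hz
    obtain ⟨r, hr, X, h2, h3⟩ := Fr.iSup_ex hz
    exact ⟨r, hr, natSetN (RO P) X.1, natN (e X), h2, h3⟩
  · intro x q hq hx
    obtain ⟨r, hr, X, hX, h2⟩ := h x q hq hx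
    exact ⟨r, hr, natN (e ⟨X, hX⟩), hmk r _ _ ⟨X, hX⟩ (Fr.mem_left h2 (Fr.down hx hr)) h2
      (Fr.refl _ _)⟩
  · intro x y y' q _ h1 h2
    refine Fr.dense fun q' hq' => ?_
    obtain ⟨r, hr, X, -, h3, h4⟩ := hex q' _ _ (Fr.down h1 hq')
    obtain ⟨r', hr', X', -, h5, h6⟩ := hex r _ _ (Fr.down h2 (hr.trans hq'))
    have h7 : X = X' := Subtype.ext (Fr.natSet_eq (Fr.trans (Fr.symm (Fr.down h3 hr')) h5))
    subst h7
    exact ⟨r', hr'.trans hr, Fr.trans (Fr.down h4 hr') (Fr.symm h6)⟩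
  · refine RO.mem_iInf.2 fun a => RO.mem_iInf.2 fun b => RO.mem_himp.2 fun q _ hq =>
      Fr.dense fun q' hq' => ?_
    obtain ⟨r, hr, X, -, -, h4⟩ := hex q' _ _ (Fr.down hq hq')
    exact ⟨r, hr, Fr.omega_mk _ h4⟩
  · refine RO.mem_iInf.2 fun a => RO.mem_iInf.2 fun a' => RO.mem_iInf.2 fun b =>
      RO.mem_himp.2 fun q _ hq => Fr.dense fun q' hq' => ?_
    obtain ⟨r, hr, X, -, h3, h4⟩ := hex q' _ _ (Fr.down hq.1 hq')
    obtain ⟨r', hr', X', -, h5, h6⟩ := hex r _ _ (Fr.down hq.2 (hr.trans hq'))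
    have h7 : X = X' := he (Fr.nat_inj (Fr.trans (Fr.symm (Fr.down h4 hr')) h6))
    subst h7
    exact ⟨r', hr'.trans hr, Fr.trans (Fr.down h3 hr') (Fr.symm h5)⟩

end

variable {Λ : Type} {o : Λ}

theorem noUnc_mem (p : Cond Λ o) : p ∈ noUncB (uN Λ o) omegaN := by
  classical
  refine RO.mem_iInf.2 fun A => RO.mem_himp.2 fun p1 _ hA => Fr.dense fun p0 hp0 => ?_
  obtain ⟨hAU, hAc⟩ := hA
  have claim : ∀ 𝓔 : Set (Set ℕ), 𝓔.Countable → ∀ q ≤ p0, ∃ r ≤ q, ∃ D : Set ℕ,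
      D ∉ 𝓔 ∧ D ∈ r.Z ∧ r ∈ memB (natSetN _ D) A := by
    intro 𝓔 h𝓔 q hq
    by_contra hno
    push Not at hno
    refine Fr.compl_mp (Fr.down hAc (hq.trans hp0)) (ctbl_of_sub 𝓔 h𝓔 ?_)
    intro z a ha hz
    obtain ⟨b, hb, X, hX, hzX⟩ := pN_ex (Fr.sub_mp (Fr.down hAU ((ha.trans hq).trans hp0)) hz)
    obtain ⟨c, hc, hXc⟩ := zB_ex hX
    refine ⟨c, hc.trans hb, X, ?_, Fr.down hzX hc⟩
    by_contra hX𝓔
    exact hno c (hc.trans (hb.trans ha)) X hX𝓔 hXc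
      (Fr.mem_left (Fr.down hzX hc) (Fr.down hz (hc.trans hb)))
  obtain ⟨S, D, hS, hSD⟩ := exists_desc2 OmOne_Iio p0
    (fun 𝓔 r D => D ∉ 𝓔 ∧ D ∈ r.Z ∧ r ∈ memB (natSetN _ D) A) claim
  have hDinj : Function.Injective D := by
    intro a b hab
    rcases lt_trichotomy a b with h | h | h
    · exact absurd ⟨a, h, hab⟩ (hSD b).2.1
    · exact h
    · exact absurd ⟨b, h, hab.symm⟩ (hSD a).2.1
  obtain ⟨δ, q, hq, X, hX, hinf⟩ := exists_low OmOne_Iio S hS D (fun ν => (hSD ν).2.2.1)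
  obtain ⟨ν0, hν0⟩ := hinf.nonempty
  refine ⟨q, (hq ν0 hν0.1).trans (hSD ν0).1, Fr.iSup_mk (natSetN _ X) ⟨pN_iff.2 (zB_mk hX), ?_⟩⟩
  refine RO.mem_iInf.2 fun s => RO.mem_himp.2 fun a ha hs => RO.mem_compl.2 fun b hb => ?_
  refine not_small D hDinj {ν | ν < δ ∧ X ⊆ D ν} hinf ?_
  rintro ν ⟨hν, hXν⟩
  rw [Fr.mem_iffB.1 (RO.mem_iInf.1 hs _) b hb]
  exact ⟨Fr.down (hSD ν).2.2.2 (hb.trans (ha.trans (hq ν hν))), Fr.natSet_sub.2 hXν⟩

end Pool.Agent.FinGenTukey
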