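import Pool.Agent.Lib.MP_849e4d_lc.BV.NotGen
import Pool.Agent.Lib.MP_849e4d_lc.BV.NoUnc
import Pool.Agent.Lib.MP_849e4d_lc.BV.Below
import Pool.Agent.Lib.MP_849e4d_lc.BV.Formula
import Pool.Agent.Lib.MP_a1c723_lc.BV.Model

/-!
# MP_849e4d_lc: assembly
-/

set_option autoImplicit false

namespace Pool.Agent.FinGenTukey

open Pool.Agent.StarRoth.BV Pool.Agent.MPa4e7db Pool.Agent.Lib.SymModel
open Pool.Agent.MP_5db68c_lc
open Pool.Agent.Lib.MP_849e4d_lc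

theorem counterB_eq_top {Λ : Type} [Uncountable Λ] {o : Λ} :
    counterB (RO (Cond Λ o)) = ⊤ := by
  rw [eq_top_iff]
  intro p _
  refine Fr.iSup_mk omegaN (Fr.iSup_mk (uN Λ o) ⟨?_, uN_ultra p, belowTop_mem p, ?_,
    noUnc_mem p, ?_, notGen_mem p⟩)
  · rw [isOmegaB_eq]
    exact Fr.refl p _
  · exact RO.mem_compl.2 fun q _ => not_aboveTopB q
  · exact RO.mem_compl.2 fun q _ => not_finGen q

theorem consistency : ∃ (M : Type) (_ : Membership M M), ModelZFC M ∧ ∃ w U : M,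
    IsOmegaIn w ∧ IsUltraIn U w ∧ BelowTopIn U w ∧ ¬ AboveTopIn U w ∧ NoUncIn U w ∧
      ¬ FinGenIn U w ∧ NotGenIn U w := by
  obtain ⟨o⟩ : Nonempty OmOne := inferInstance
  have hne : (⊥ : RO (Cond OmOne o)) ≠ ⊤ := by
    intro h
    have h1 : Cond.init OmOne o ∈ (⊤ : RO (Cond OmOne o)) := RO.mem_top _
    rw [← h] at h1
    exact RO.notMem_bot _ h1
  obtain ⟨M, _, hM, hval⟩ := modelStmt (RO (Cond OmOne o)) hne
  refine ⟨M, _, hM, ?_⟩
  have h1 := hval fCounter fun v => by rw [val_fCounter, counterB_eq_top]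
  obtain ⟨e, -⟩ := hM.infinity
  exact (sat_fCounter fun _ => e).1 (h1 _)

end Pool.Agent.FinGenTukey
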