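import Pool.Agent.Lib.MP_a1c723_lc.BV.Defs

/-!
# MP_849e4d_lc: Boolean values of the notions of the question
-/

set_option autoImplicit false

namespace Pool.Agent.FinGenTukey

open Pool.Agent.StarRoth.BV Pool.Agent.MPa4e7db

variable {B : Type} [CompleteBooleanAlgebra B]

/-- `C` is a cofinal subset of `(U, ⊇)`. -/
def isCofB (C U : BName B) : B :=
  subB C U ⊓ ⨅ x : BName B, memB x U ⇨ ⨆ y : BName B, memB y C ⊓ subB y x

/-- `f : U → V` is monotone and cofinal. -/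
def isMonCofB (f U V : BName B) : B :=
  isFunIntoB f U V ⊓
  (⨅ x : BName B, ⨅ y : BName B, ⨅ a : BName B, ⨅ b : BName B,
    relB f x a ⊓ (relB f y b ⊓ subB y x) ⇨ subB b a) ⊓
  ⨅ C : BName B, isCofB C U ⇨ ⨅ z : BName B, memB z V ⇨
    ⨆ y : BName B, ⨆ b : BName B, memB y C ⊓ (relB f y b ⊓ subB b z)

/-- `F = [ω]^{<ω}`. -/
def isFinSetB (F w : BName B) : B :=
  ⨅ s : BName B, iffB (memB s F) (⨆ k : BName B, memB k w ⊓ subB s k)

/-- `g : [ω]^{<ω} → [ω]^{<ω}` is monotone. -/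
def isMonFinB (g w : BName B) : B :=
  ⨆ F : BName B, isFinSetB F w ⊓ (isFunIntoB g F F ⊓
    ⨅ s : BName B, ⨅ t : BName B, ⨅ a : BName B, ⨅ b : BName B,
      relB g s a ⊓ (relB g t b ⊓ subB s t) ⇨ subB a b)

/-- `a = ⋃_{k ∈ ω} g(x ∩ k)`. -/
def isUnionB (a g x w : BName B) : B :=
  ⨅ m : BName B, iffB (memB m a) (⨆ k : BName B, ⨆ s : BName B, ⨆ b : BName B,
    memB k w ⊓ (isInterB s x k ⊓ (relB g s b ⊓ memB m b)))

/-- `U` has finitely generated Tukey reductions. -/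
def finGenB (U w : BName B) : B :=
  ⨅ V : BName B, ⨅ f : BName B, isUltrafilterB V w ⊓ isMonCofB f U V ⇨
    ⨆ C : BName B, ⨆ g : BName B, isCofB C U ⊓ (isMonFinB g w ⊓
      ⨅ x : BName B, ⨅ a : BName B, memB x C ⊓ relB f x a ⇨ isUnionB a g x w)

/-- `s` is a finite set of subsets of `ω`. -/
def isFinFamB (s w : BName B) : B :=
  (⨅ x : BName B, memB x s ⇨ subB x w) ⊓ ⨆ k : BName B, memB k w ⊓ cardLeB s k

/-- `T = [P(ω)]^{<ω}`. -/
def isTopB (T w : BName B) : B := ⨅ s : BName B, iffB (memB s T) (isFinFamB s w)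

/-- `D` is a cofinal subset of `(T, ⊆)`. -/
def isCofTopB (D T : BName B) : B :=
  subB D T ⊓ ⨅ s : BName B, memB s T ⇨ ⨆ t : BName B, memB t D ⊓ subB s t

/-- `(U, ⊇) ≤_T ([P(ω)]^{<ω}, ⊆)`. -/
def belowTopB (U w : BName B) : B :=
  ⨆ T : BName B, ⨆ h : BName B, isTopB T w ⊓ (isFunIntoB h T U ⊓
    ⨅ D : BName B, isCofTopB D T ⇨ ⨅ x : BName B, memB x U ⇨
      ⨆ t : BName B, ⨆ b : BName B, memB t D ⊓ (relB h t b ⊓ subB b x))

/-- `([P(ω)]^{<ω}, ⊆) ≤_T (U, ⊇)`. -/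
def aboveTopB (U w : BName B) : B :=
  ⨆ T : BName B, ⨆ h : BName B, isTopB T w ⊓ (isFunIntoB h U T ⊓
    ⨅ C : BName B, isCofB C U ⇨ ⨅ s : BName B, memB s T ⇨
      ⨆ y : BName B, ⨆ t : BName B, memB y C ⊓ (relB h y t ⊓ subB s t))

/-- `V` is generated by `{⋃_{k ∈ ω} g(x ∩ k) : x ∈ U}`. -/
def generatesB (g U V w : BName B) : B :=
  ⨅ z : BName B, iffB (memB z V) (subB z w ⊓ ⨆ x : BName B, ⨆ a : BName B,
    memB x U ⊓ (isUnionB a g x w ⊓ subB a z))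

/-- Some `V` Tukey below `U` is not generated by any `g`. -/
def notGenB (U w : BName B) : B :=
  ⨆ V : BName B, ⨆ f : BName B, isUltrafilterB V w ⊓ (isMonCofB f U V ⊓
    (⨆ g : BName B, isMonFinB g w ⊓ generatesB g U V w)ᶜ)

/-- Every uncountable `A ⊆ U` has infinitely many members that include one `x ∈ U`. -/
def noUncB (U w : BName B) : B :=
  ⨅ A : BName B, subB A U ⊓ (isCtblB A w)ᶜ ⇨
    ⨆ x : BName B, memB x U ⊓ ⨅ s : BName B,
      (⨅ y : BName B, iffB (memB y s) (memB y A ⊓ subB x y)) ⇨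
        (⨆ k : BName B, memB k w ⊓ cardLeB s k)ᶜ

/-- The Boolean value of the sentence: some ultrafilter `U` on `ω` is strictly Tukey below
`[P(ω)]^{<ω}` (and not even Tukey above `[ω₁]^{<ω}`) and does not have finitely generated Tukey
reductions. -/
def counterB (B : Type) [CompleteBooleanAlgebra B] : B :=
  ⨆ w : BName B, ⨆ U : BName B, isOmegaB w ⊓ (isUltrafilterB U w ⊓ (belowTopB U w ⊓
    ((aboveTopB U w)ᶜ ⊓ (noUncB U w ⊓ ((finGenB U w)ᶜ ⊓ notGenB U w)))))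

end Pool.Agent.FinGenTukey
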