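import Pool.Agent.Lib.SymModel.RO
import Pool.Agent.Lib.MP_849e4d_lc.BV.Defs
import Pool.Agent.Lib.MP_a1c723_lc.BV.Base

/-!
# MP_849e4d_lc: the forcing relation for names over the regular open algebra of a preorder
-/

set_option autoImplicit false

namespace Pool.Agent.FinGenTukey

open Pool.Agent.StarRoth.BV Pool.Agent.MPa4e7db Pool.Agent.Lib.SymModel

variable {P : Type} [Preorder P]

namespace Fr

/-! ### Connectives -/

theorem down {U : RO P} {p q : P} (hp : p ∈ U) (hq : q ≤ p) : q ∈ U := U.down hp hq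

theorem of_le {U V : RO P} (h : ∀ x : RO P, x ≤ U → x ≤ V) {p : P} (hp : p ∈ U) : p ∈ V :=
  RO.prin_le_iff.1 (h _ (RO.prin_le_iff.2 hp))

theorem of_le2 {U V W : RO P} (h : ∀ x : RO P, x ≤ U → x ≤ V → x ≤ W) {p : P} (hp : p ∈ U)
    (hp' : p ∈ V) : p ∈ W :=
  RO.prin_le_iff.1 (h _ (RO.prin_le_iff.2 hp) (RO.prin_le_iff.2 hp'))

/-- To force `U` below `p` it is enough to force it densely. -/
theorem dense {U : RO P} {p : P} (h : ∀ q ≤ p, ∃ r ≤ q, r ∈ U) : p ∈ U := U.mem_of_dense h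

theorem iSup_mk {ι : Sort*} {U : ι → RO P} {p : P} (i : ι) (h : p ∈ U i) : p ∈ ⨆ i, U i :=
  le_iSup U i p h

theorem iSup_ex {ι : Sort*} {U : ι → RO P} {p : P} (h : p ∈ ⨆ i, U i) : ∃ q ≤ p, ∃ i, q ∈ U i :=
  RO.mem_iSup.1 h p le_rfl

theorem iSup_elim {ι : Sort*} {U : ι → RO P} {V : RO P} {p : P} (h : p ∈ ⨆ i, U i)
    (H : ∀ q ≤ p, ∀ i, q ∈ U i → q ∈ V) : p ∈ V := by
  refine dense fun q hq => ?_
  obtain ⟨r, hr, i, hi⟩ := iSup_ex (down h hq)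
  exact ⟨r, hr, H r (hr.trans hq) i hi⟩

theorem iInf_mp {ι : Sort*} {U : ι → RO P} {p : P} (h : p ∈ ⨅ i, U i) (i : ι) : p ∈ U i :=
  RO.mem_iInf.1 h i

theorem himp_mp {U V : RO P} {p : P} (h : p ∈ U ⇨ V) (h1 : p ∈ U) : p ∈ V :=
  RO.mem_himp.1 h p le_rfl h1

theorem compl_mp {U : RO P} {p : P} (h : p ∈ Uᶜ) (h1 : p ∈ U) : False :=
  RO.mem_compl.1 h p le_rfl h1

theorem decide (U : RO P) (p : P) : ∃ q ≤ p, q ∈ U ∨ q ∈ Uᶜ := by
  by_cases h : ∃ q ≤ p, q ∈ U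
  · obtain ⟨q, hq, hU⟩ := h
    exact ⟨q, hq, Or.inl hU⟩
  · push Not at h
    exact ⟨p, le_rfl, Or.inr (RO.mem_compl.2 h)⟩

theorem mem_iffB {U V : RO P} {p : P} : p ∈ iffB U V ↔ ∀ q ≤ p, q ∈ U ↔ q ∈ V := by
  rw [iffB, RO.mem_inf, RO.mem_himp, RO.mem_himp]
  exact ⟨fun h q hq => ⟨h.1 q hq, h.2 q hq⟩, fun h => ⟨fun q hq => (h q hq).1,
    fun q hq => (h q hq).2⟩⟩

theorem top {U : RO P} (h : U = ⊤) (p : P) : p ∈ U := by rw [h]; exact RO.mem_top p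

theorem bot {U : RO P} (h : U = ⊥) {p : P} (hp : p ∈ U) : False := by
  rw [h] at hp; exact RO.notMem_bot p hp

/-! ### Equality and membership -/

variable {p : P} {x y z x' y' f g d r t : BName (RO P)}

theorem refl (p : P) (x : BName (RO P)) : p ∈ eqB x x := top (eqB_refl x) p

theorem symm (h : p ∈ eqB x y) : p ∈ eqB y x := by rwa [eqB_symm]

theorem trans (h : p ∈ eqB x y) (h' : p ∈ eqB y z) : p ∈ eqB x z :=
  of_le2 (fun _ h1 h2 => eqB.trans h1 h2) h h'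

theorem mem_left (h : p ∈ eqB x y) (h' : p ∈ memB x z) : p ∈ memB y z :=
  of_le2 (fun _ h1 h2 => memB_congr_left h1 h2) h h'

theorem mem_right (h : p ∈ eqB x y) (h' : p ∈ memB z x) : p ∈ memB z y :=
  of_le2 (fun _ h1 h2 => memB_congr_right h1 h2) h h'

theorem sub_iff : p ∈ subB x y ↔ ∀ z, ∀ q ≤ p, q ∈ memB z x → q ∈ memB z y := by
  rw [subB, RO.mem_iInf]
  exact forall_congr' fun z => RO.mem_himp

theorem sub_mp (h : p ∈ subB x y) (h1 : p ∈ memB z x) : p ∈ memB z y :=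
  sub_iff.1 h z p le_rfl h1

theorem sub_refl (p : P) (x : BName (RO P)) : p ∈ subB x x := sub_iff.2 fun _ _ _ h => h

theorem sub_of_eq (h : p ∈ eqB x y) : p ∈ subB x y :=
  sub_iff.2 fun _ _ hq h1 => mem_right (down h hq) h1

theorem sub_trans (h : p ∈ subB x y) (h' : p ∈ subB y z) : p ∈ subB x z :=
  sub_iff.2 fun _ _ hq h1 => sub_mp (down h' hq) (sub_mp (down h hq) h1)

theorem sub_congr (h : p ∈ eqB x x') (h' : p ∈ eqB y y') (h1 : p ∈ subB x y) :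
    p ∈ subB x' y' :=
  sub_trans (sub_of_eq (symm h)) (sub_trans h1 (sub_of_eq h'))

theorem ext (h1 : ∀ z, ∀ q ≤ p, q ∈ memB z x → q ∈ memB z y)
    (h2 : ∀ z, ∀ q ≤ p, q ∈ memB z y → q ∈ memB z x) : p ∈ eqB x y := by
  refine RO.prin_le_iff.1 (eqB_ext ?_ ?_)
  · intro z b hb hb' s hs
    refine dense fun q hq => ?_
    have h3 : q ∈ RO.prin p := hb q (down hs hq)
    obtain ⟨r, hr, hrp⟩ := h3 q le_rfl
    exact ⟨r, hr, h1 z r hrp (down (hb' s hs) (hr.trans hq))⟩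
  · intro z b hb hb' s hs
    refine dense fun q hq => ?_
    have h3 : q ∈ RO.prin p := hb q (down hs hq)
    obtain ⟨r, hr, hrp⟩ := h3 q le_rfl
    exact ⟨r, hr, h2 z r hrp (down (hb' s hs) (hr.trans hq))⟩

theorem eq_iff : p ∈ eqB x y ↔ ∀ z, ∀ q ≤ p, q ∈ memB z x ↔ q ∈ memB z y :=
  ⟨fun h _ _ hq => ⟨fun h1 => mem_right (down h hq) h1, fun h1 => mem_right (symm (down h hq)) h1⟩,
    fun h => ext (fun z q hq => (h z q hq).1) (fun z q hq => (h z q hq).2)⟩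

theorem inter_iff : p ∈ isInterB z x y ↔
    ∀ t, ∀ q ≤ p, q ∈ memB t z ↔ q ∈ memB t x ∧ q ∈ memB t y := by
  rw [isInterB, RO.mem_iInf]
  refine forall_congr' fun t => ?_
  rw [mem_iffB]
  rfl

theorem diff_iff : p ∈ isDiffB z x y ↔
    ∀ t, ∀ q ≤ p, q ∈ memB t z ↔ q ∈ memB t x ∧ q ∈ (memB t y)ᶜ := by
  rw [isDiffB, RO.mem_iInf]
  refine forall_congr' fun t => ?_
  rw [mem_iffB]
  rfl

/-! ### Relations and functions -/

theorem rel_congr (hf : p ∈ eqB f g) (hx : p ∈ eqB x x') (hy : p ∈ eqB y y')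
    (h : p ∈ relB f x y) : p ∈ relB g x' y' := by
  have h1 : p ∈ relB g x y := of_le2 (fun _ a b => relB_congr_fun a b) hf h
  have h2 : p ∈ relB g x' y := of_le2 (fun _ a b => relB_congr a (le_eqB_refl _ _) b) hx h1
  exact of_le2 (fun _ a b => relB_congr (le_eqB_refl _ _) a b) hy h2

theorem rel_left (hx : p ∈ eqB x x') (h : p ∈ relB f x y) : p ∈ relB f x' y :=
  rel_congr (refl _ _) hx (refl _ _) h

theorem rel_right (hy : p ∈ eqB y y') (h : p ∈ relB f x y) : p ∈ relB f x y' :=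
  rel_congr (refl _ _) (refl _ _) hy h

theorem fun_total (h : p ∈ isFunOnB f d) (hx : p ∈ memB x d) : p ∈ ⨆ y, relB f x y :=
  of_le2 (fun _ a b => isFunOnB_total a b) h hx

theorem fun_unique (h : p ∈ isFunOnB f d) (h1 : p ∈ relB f x y) (h2 : p ∈ relB f x y') :
    p ∈ eqB y y' := by
  refine of_le2 (U := isFunOnB f d) (V := relB f x y ⊓ relB f x y')
    (fun _ a b => isFunOnB_unique a (b.trans inf_le_left) (b.trans inf_le_right)) h ⟨h1, h2⟩

theorem fun_dom (h : p ∈ isFunOnB f d) (h1 : p ∈ relB f x y) : p ∈ memB x d :=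
  of_le2 (fun _ a b => isFunOnB_dom a b) h h1

theorem fun_intro
    (h1 : ∀ z, ∀ q ≤ p, q ∈ memB z f → ∃ r ≤ q, ∃ x y, r ∈ memB x d ∧ r ∈ eqB z (opair x y))
    (h2 : ∀ x, ∀ q ≤ p, q ∈ memB x d → ∃ r ≤ q, ∃ y, r ∈ relB f x y)
    (h3 : ∀ x y y', ∀ q ≤ p, q ∈ relB f x y → q ∈ relB f x y' → q ∈ eqB y y') :
    p ∈ isFunOnB f d := by
  refine ⟨⟨?_, ?_⟩, ?_⟩
  · refine RO.mem_iInf.2 fun z => RO.mem_himp.2 fun q hq hz => dense fun q' hq' => ?_
    obtain ⟨r, hr, x, y, h4, h5⟩ := h1 z q' (hq'.trans hq) (down hz hq')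
    refine ⟨r, hr, iSup_mk x (iSup_mk y ⟨h4, ?_⟩)⟩
    rw [isOPairB_eq]
    exact h5
  · refine RO.mem_iInf.2 fun x => RO.mem_himp.2 fun q hq hx => dense fun q' hq' => ?_
    obtain ⟨r, hr, y, h4⟩ := h2 x q' (hq'.trans hq) (down hx hq')
    exact ⟨r, hr, iSup_mk y h4⟩
  · refine RO.mem_iInf.2 fun x => RO.mem_iInf.2 fun y => RO.mem_iInf.2 fun y' =>
      RO.mem_himp.2 fun q hq hx => h3 x y y' q hq hx.1 hx.2

theorem into_iff : p ∈ isFunIntoB f d r ↔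
    p ∈ isFunOnB f d ∧ ∀ x y, ∀ q ≤ p, q ∈ relB f x y → q ∈ memB y r := by
  rw [isFunIntoB, RO.mem_inf]
  refine and_congr Iff.rfl ?_
  simp only [RO.mem_iInf, RO.mem_himp]

theorem into_mem (h : p ∈ isFunIntoB f d r) (h1 : p ∈ relB f x y) : p ∈ memB y r :=
  (into_iff.1 h).2 x y p le_rfl h1

/-! ### Natural numbers and ground model sets of natural numbers -/

theorem omega_ex (h : p ∈ memB t omegaN) : ∃ q ≤ p, ∃ n : ℕ, q ∈ eqB t (natN n) := by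
  rw [memB_omegaN] at h
  exact iSup_ex h

theorem omega_mk (n : ℕ) (h : p ∈ eqB t (natN n)) : p ∈ memB t omegaN :=
  mem_left (symm h) (top (natN_mem_omegaN n) p)

theorem nat_inj {m n : ℕ} (h : p ∈ eqB (natN m : BName (RO P)) (natN n)) : m = n := by
  by_contra hne
  exact bot (eqB_natN_ne hne) h

theorem natSet_iff {n : ℕ} {X : Set ℕ} :
    p ∈ memB (natN n : BName (RO P)) (natSetN (RO P) X) ↔ n ∈ X := by
  constructor
  · intro h
    by_contra hn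
    exact bot (natN_notMem_natSetN hn) h
  · intro h
    exact top (natN_mem_natSetN h) p

theorem natSet_ex {X : Set ℕ} (h : p ∈ memB t (natSetN (RO P) X)) :
    ∃ q ≤ p, ∃ n ∈ X, q ∈ eqB t (natN n) := by
  rw [memB_natSetN] at h
  obtain ⟨q, hq, n, hn⟩ := iSup_ex h
  exact ⟨q, hq, n.1, n.2, hn⟩

theorem natSet_sub {X Y : Set ℕ} : p ∈ subB (natSetN (RO P) X) (natSetN (RO P) Y) ↔ X ⊆ Y := by
  constructor
  · intro h n hn
    exact natSet_iff.1 (sub_mp h (natSet_iff.2 hn))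
  · intro h
    refine sub_iff.2 fun z q _ hz => dense fun q' hq' => ?_
    obtain ⟨r, hr, n, hn, hrn⟩ := natSet_ex (down hz hq')
    exact ⟨r, hr, mem_left (symm hrn) (natSet_iff.2 (h hn))⟩

theorem natSet_eq {X Y : Set ℕ} (h : p ∈ eqB (natSetN (RO P) X) (natSetN (RO P) Y)) : X = Y :=
  Set.Subset.antisymm (natSet_sub.1 (sub_of_eq h)) (natSet_sub.1 (sub_of_eq (symm h)))

theorem natSet_sub_omega (p : P) (X : Set ℕ) : p ∈ subB (natSetN (RO P) X) omegaN := by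
  refine sub_iff.2 fun z q _ hz => dense fun q' hq' => ?_
  obtain ⟨r, hr, n, hn, hrn⟩ := natSet_ex (down hz hq')
  exact ⟨r, hr, omega_mk n hrn⟩

theorem omega_eq (p : P) : p ∈ eqB omegaN (natSetN (RO P) Set.univ) := by
  refine ext (fun z q _ hz => dense fun q' hq' => ?_)
    (fun z q _ hz => sub_mp (natSet_sub_omega q _) hz)
  obtain ⟨r, hr, n, hn⟩ := omega_ex (down hz hq')
  exact ⟨r, hr, mem_left (symm hn) (natSet_iff.2 (Set.mem_univ n))⟩

theorem natN_eq (p : P) (k : ℕ) : p ∈ eqB (natN k) (natSetN (RO P) (Set.Iio k)) := by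
  refine ext (fun z q _ hz => ?_) (fun z q _ hz => dense fun q' hq' => ?_)
  · rw [memB_natN] at hz
    refine iSup_elim hz fun r hr i hi => ?_
    exact mem_left (symm hi) (natSet_iff.2 i.2)
  · obtain ⟨r, hr, n, hn, hrn⟩ := natSet_ex (down hz hq')
    refine ⟨r, hr, mem_left (symm hrn) (top (memB_natN_lt hn) r)⟩

theorem eq_natSet_iff {X : Set ℕ} (h : p ∈ subB x omegaN)
    (h1 : ∀ n ∈ X, p ∈ memB (natN n) x) (h2 : ∀ n ∉ X, p ∈ (memB (natN n) x)ᶜ) :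
    p ∈ eqB x (natSetN (RO P) X) := by
  refine ext (fun z q hq hz => dense fun q' hq' => ?_) (fun z q hq hz => dense fun q' hq' => ?_)
  · obtain ⟨r, hr, n, hn⟩ := omega_ex (down (sub_mp (down h hq) hz) hq')
    refine ⟨r, hr, mem_left (symm hn) (natSet_iff.2 ?_)⟩
    by_contra hnX
    exact compl_mp (down (h2 n hnX) (hr.trans (hq'.trans hq)))
      (mem_left hn (down hz (hr.trans hq')))
  · obtain ⟨r, hr, n, hn, hrn⟩ := natSet_ex (down hz hq')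
    exact ⟨r, hr, mem_left (symm hrn) (down (h1 n hn) (hr.trans (hq'.trans hq)))⟩

end Fr

/-! ### Countably closed preorders -/

/-- Every descending sequence has a lower bound. -/
def CtblClosed (P : Type) [Preorder P] : Prop :=
  ∀ s : ℕ → P, (∀ n, s (n + 1) ≤ s n) → ∃ q, ∀ n, q ≤ s n

namespace CtblClosed

theorem decide_nat (hP : CtblClosed P) (b : ℕ → RO P) (p : P) :
    ∃ q ≤ p, ∃ E : Set ℕ, (∀ n ∈ E, q ∈ b n) ∧ ∀ n ∉ E, q ∈ (b n)ᶜ := by
  classical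
  have h : ∀ (n : ℕ) (q : P), ∃ r ≤ q, r ∈ b n ∨ r ∈ (b n)ᶜ := fun n q => Fr.decide (b n) q
  choose st hst1 hst2 using h
  let s : ℕ → P := fun n => Nat.rec p (fun n q => st n q) n
  have hs0 : s 0 = p := rfl
  have hs : ∀ n, s (n + 1) = st n (s n) := fun n => rfl
  obtain ⟨q, hq⟩ := hP s (fun n => by rw [hs]; exact hst1 n _)
  refine ⟨q, hs0 ▸ hq 0, {n | q ∈ b n}, fun n hn => hn, fun n hn => ?_⟩
  rcases hst2 n (s n) with h1 | h1
  · exact absurd (Fr.down h1 (by rw [← hs]; exact hq (n + 1))) hn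
  · exact Fr.down h1 (by rw [← hs]; exact hq (n + 1))

theorem real (hP : CtblClosed P) {p : P} {x : BName (RO P)} (h : p ∈ subB x omegaN) :
    ∃ q ≤ p, ∃ X : Set ℕ, q ∈ eqB x (natSetN (RO P) X) := by
  obtain ⟨q, hq, X, h1, h2⟩ := hP.decide_nat (fun n => memB (natN n) x) p
  exact ⟨q, hq, X, Fr.eq_natSet_iff (Fr.down h hq) h1 h2⟩

end CtblClosed

/-! ### Names of sets of ground model reals -/

/-- The name of the set of all `X ⊆ ω` (in the ground model) with value `A X`. -/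
noncomputable def pN (A : Set ℕ → RO P) : BName (RO P) :=
  BName.mk (Set ℕ) (fun X => natSetN (RO P) X) A

theorem pN_ex {A : Set ℕ → RO P} {p : P} {t : BName (RO P)} (h : p ∈ memB t (pN A)) :
    ∃ q ≤ p, ∃ X : Set ℕ, q ∈ A X ∧ q ∈ eqB t (natSetN (RO P) X) := by
  rw [pN, memB_mk] at h
  obtain ⟨q, hq, X, h1⟩ := Fr.iSup_ex h
  exact ⟨q, hq, X, h1.1, h1.2⟩

theorem pN_mk {A : Set ℕ → RO P} {p : P} {t : BName (RO P)} (X : Set ℕ) (h : p ∈ A X)
    (h1 : p ∈ eqB t (natSetN (RO P) X)) : p ∈ memB t (pN A) := by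
  rw [pN, memB_mk]
  exact Fr.iSup_mk X ⟨h, h1⟩

theorem pN_iff {A : Set ℕ → RO P} {p : P} {X : Set ℕ} :
    p ∈ memB (natSetN (RO P) X) (pN A) ↔ p ∈ A X := by
  constructor
  · intro h
    refine Fr.dense fun q hq => ?_
    obtain ⟨r, hr, Y, h1, h2⟩ := pN_ex (Fr.down h hq)
    rw [Fr.natSet_eq h2]
    exact ⟨r, hr, h1⟩
  · intro h
    exact pN_mk X h (Fr.refl _ _)

theorem pN_sub_omega {A : Set ℕ → RO P} {p : P} {t : BName (RO P)} (h : p ∈ memB t (pN A)) :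
    p ∈ subB t omegaN := by
  refine Fr.dense fun q hq => ?_
  obtain ⟨r, hr, X, h1, h2⟩ := pN_ex (Fr.down h hq)
  exact ⟨r, hr, Fr.sub_trans (Fr.sub_of_eq h2) (Fr.natSet_sub_omega r X)⟩

end Pool.Agent.FinGenTukey
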