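import Pool.Agent.Lib.MP_849e4d_lc.BV.Ultra

/-!
# MP_849e4d_lc: the monotone cofinal map `f : U → V`
-/

set_option autoImplicit false

namespace Pool.Agent.FinGenTukey

open Pool.Agent.StarRoth.BV Pool.Agent.MPa4e7db Pool.Agent.Lib.SymModel
open Pool.Agent.Lib.MP_849e4d_lc

variable {Λ : Type} {o : Λ}

/-- The name of the value `f(X) = {n : X ∈ u_n}`. -/
def fvN (Λ : Type) (o : Λ) (X : Set ℕ) : BName (RO (Cond Λ o)) := setN (fun n => fB X n)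

/-- The name of the map `f : U → V`. -/
noncomputable def fN (Λ : Type) (o : Λ) : BName (RO (Cond Λ o)) :=
  BName.mk (Set ℕ) (fun X => opair (natSetN _ X) (fvN Λ o X)) zB

variable {p : Cond Λ o} {X Y C : Set ℕ} {n : ℕ} {x y t a b : BName (RO (Cond Λ o))}

theorem fvN_iff : p ∈ memB (natN n) (fvN Λ o X) ↔ p ∈ fB X n := by
  rw [fvN, memB_natN_setN]

theorem fvN_ex (h : p ∈ memB t (fvN Λ o X)) :
    ∃ q ≤ p, ∃ n : ℕ, q ∈ fB X n ∧ q ∈ eqB t (natN n) := by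
  rw [fvN, memB_setN] at h
  obtain ⟨q, hq, n, h1⟩ := Fr.iSup_ex h
  exact ⟨q, hq, n, h1.1, h1.2⟩

theorem fvN_sub_omega (p : Cond Λ o) (X : Set ℕ) : p ∈ subB (fvN Λ o X) omegaN := by
  refine Fr.sub_iff.2 fun z q _ hz => Fr.dense fun q' hq' => ?_
  obtain ⟨r, hr, n, -, hn⟩ := fvN_ex (Fr.down hz hq')
  exact ⟨r, hr, Fr.omega_mk n hn⟩

theorem fvN_mono (p : Cond Λ o) (h : Y ⊆ X) : p ∈ subB (fvN Λ o Y) (fvN Λ o X) := by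
  refine Fr.sub_iff.2 fun z q _ hz => Fr.dense fun q' hq' => ?_
  obtain ⟨r, hr, n, h1, hn⟩ := fvN_ex (Fr.down hz hq')
  obtain ⟨s, hs, h2⟩ := fB_ex h1
  refine ⟨s, hs.trans hr, Fr.mem_left (Fr.symm (Fr.down hn hs)) (fvN_iff.2 ?_)⟩
  exact fB_mk (Filter.mem_of_superset h2 h)

theorem fN_ex (h : p ∈ relB (fN Λ o) x y) : ∃ q ≤ p, ∃ X : Set ℕ, q ∈ zB X ∧
    q ∈ eqB x (natSetN _ X) ∧ q ∈ eqB y (fvN Λ o X) := by
  rw [relB_eq, fN, memB_mk] at h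
  obtain ⟨q, hq, X, h1, h2⟩ := Fr.iSup_ex h
  rw [eqB_opair] at h2
  exact ⟨q, hq, X, h1, h2.1, h2.2⟩

theorem fN_mk (X : Set ℕ) (h : p ∈ zB X) (h1 : p ∈ eqB x (natSetN _ X))
    (h2 : p ∈ eqB y (fvN Λ o X)) : p ∈ relB (fN Λ o) x y := by
  rw [relB_eq, fN, memB_mk]
  refine Fr.iSup_mk X ⟨h, ?_⟩
  rw [eqB_opair]
  exact ⟨h1, h2⟩

/-- If `x = X` and `f(x) = y` then `X ∈ U` and `y = f(X)`. -/
theorem fN_rel (h : p ∈ relB (fN Λ o) x y) (hx : p ∈ eqB x (natSetN _ X)) :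
    p ∈ zB X ∧ p ∈ eqB y (fvN Λ o X) := by
  constructor
  · refine Fr.dense fun q hq => ?_
    obtain ⟨r, hr, Y, h1, h2, h3⟩ := fN_ex (Fr.down h hq)
    have hXY : Y = X := Fr.natSet_eq (Fr.trans (Fr.symm h2) (Fr.down hx (hr.trans hq)))
    exact ⟨r, hr, hXY ▸ h1⟩
  · refine Fr.dense fun q hq => ?_
    obtain ⟨r, hr, Y, h1, h2, h3⟩ := fN_ex (Fr.down h hq)
    have hXY : Y = X := Fr.natSet_eq (Fr.trans (Fr.symm h2) (Fr.down hx (hr.trans hq)))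
    exact ⟨r, hr, hXY ▸ h3⟩

theorem fN_fun (p : Cond Λ o) : p ∈ isFunOnB (fN Λ o) (uN Λ o) := by
  refine Fr.fun_intro ?_ ?_ ?_
  · intro z q _ hz
    rw [fN, memB_mk] at hz
    obtain ⟨r, hr, X, h1, h2⟩ := Fr.iSup_ex hz
    exact ⟨r, hr, natSetN _ X, fvN Λ o X, pN_iff.2 h1, h2⟩
  · intro x q _ hx
    obtain ⟨r, hr, X, h1, h2⟩ := pN_ex hx
    exact ⟨r, hr, fvN Λ o X, fN_mk X h1 h2 (Fr.refl _ _)⟩
  · intro x y y' q _ h1 h2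
    refine Fr.dense fun q' hq' => ?_
    obtain ⟨r, hr, X, -, h3, h4⟩ := fN_ex (Fr.down h1 hq')
    have h5 := (fN_rel (Fr.down h2 (hr.trans hq')) h3).2
    exact ⟨r, hr, Fr.trans h4 (Fr.symm h5)⟩

/-- Densely, the value `f(X)` is a ground model set in `V`. -/
theorem fvN_ground (hX : p ∈ zB X) : ∃ q ≤ p, ∃ C : Set ℕ, (∀ n, n ∈ C ↔ X ∈ q.F o n) ∧
    (∀ n ∉ C, Xᶜ ∈ q.F o n) ∧ X ∈ q.Z ∧ q ∈ eqB (fvN Λ o X) (natSetN _ C) := by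
  obtain ⟨q1, hq1, h1⟩ := zB_ex hX
  obtain ⟨q, hq, h2, -⟩ := q1.exists_decide X
  have h3 : ∀ n, X ∈ q.F o n ∨ Xᶜ ∈ q.F o n := h2 o q1.ho
  refine ⟨q, hq.trans hq1, {n | X ∈ q.F o n}, fun n => Iff.rfl,
    fun n hn => (h3 n).resolve_left hn, hq.2.2 h1, ?_⟩
  refine Fr.eq_natSet_iff (fvN_sub_omega q X) ?_ ?_
  · intro n hn
    exact fvN_iff.2 (fB_mk hn)
  · intro n hn
    refine RO.mem_compl.2 fun r hr hr' => ?_
    obtain ⟨s, hs, h4⟩ := fB_ex (fvN_iff.1 hr')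
    exact F_disj h4 ((hs.trans hr).2.1 o n ((h3 n).resolve_left hn))

theorem fN_into (p : Cond Λ o) : p ∈ isFunIntoB (fN Λ o) (uN Λ o) (vN Λ o) := by
  refine Fr.into_iff.2 ⟨fN_fun p, fun x y q _ h => Fr.dense fun q' hq' => ?_⟩
  obtain ⟨r, hr, X, h1, -, h3⟩ := fN_ex (Fr.down h hq')
  obtain ⟨s, hs, C, -, h5, h6, h7⟩ := fvN_ground h1
  exact ⟨s, hs.trans hr, pN_mk C (vB_mk X h6 h5) (Fr.trans (Fr.down h3 hs) h7)⟩

theorem fN_monCof (p : Cond Λ o) : p ∈ isMonCofB (fN Λ o) (uN Λ o) (vN Λ o) := by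
  refine ⟨⟨fN_into p, ?_⟩, ?_⟩
  · refine RO.mem_iInf.2 fun x => RO.mem_iInf.2 fun y => RO.mem_iInf.2 fun a =>
      RO.mem_iInf.2 fun b => RO.mem_himp.2 fun q _ hq => Fr.dense fun q' hq' => ?_
    obtain ⟨ha, hb, hyx⟩ := hq
    obtain ⟨r, hr, X, -, h3, h4⟩ := fN_ex (Fr.down ha hq')
    obtain ⟨s, hs, Y, -, h5, h6⟩ := fN_ex (Fr.down hb (hr.trans hq'))
    have hYX : Y ⊆ X := Fr.natSet_sub.1 (Fr.sub_congr h5 (Fr.down h3 hs)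
      (Fr.down hyx (hs.trans (hr.trans hq'))))
    refine ⟨s, hs.trans hr, ?_⟩
    exact Fr.sub_congr (Fr.symm h6) (Fr.symm (Fr.down h4 hs)) (fvN_mono s hYX)
  · refine RO.mem_iInf.2 fun C => RO.mem_himp.2 fun q _ hC => RO.mem_iInf.2 fun z =>
      RO.mem_himp.2 fun q1 hq1 hz => Fr.dense fun q2 hq2 => ?_
    obtain ⟨r, hr, Z, hZ, hzZ⟩ := pN_ex (Fr.down hz hq2)
    obtain ⟨s, hs, X, hX, hXZ⟩ := vB_ex hZ
    -- `C` has a member `y` below `X`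
    have h1 := RO.mem_iInf.1 hC.2 (natSetN _ X)
    have h2 := Fr.himp_mp (Fr.down h1 (hs.trans (hr.trans (hq2.trans hq1)))) (pN_iff.2 (zB_mk hX))
    obtain ⟨s1, hs1, y, hy, hyX⟩ := Fr.iSup_ex h2
    have hyU : s1 ∈ memB y (uN Λ o) :=
      Fr.sub_mp (Fr.down hC.1 (hs1.trans (hs.trans (hr.trans (hq2.trans hq1))))) hy
    obtain ⟨s2, hs2, Y, hY, hyY⟩ := pN_ex hyU
    have hYX : Y ⊆ X := Fr.natSet_sub.1 (Fr.sub_congr hyY (Fr.refl _ _) (Fr.down hyX hs2))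
    refine ⟨s2, hs2.trans (hs1.trans (hs.trans hr)), Fr.iSup_mk y (Fr.iSup_mk (fvN Λ o Y)
      ⟨Fr.down hy hs2, fN_mk Y hY hyY (Fr.refl _ _), ?_⟩)⟩
    refine Fr.sub_congr (Fr.refl _ _) (Fr.symm (Fr.down hzZ (hs2.trans (hs1.trans hs)))) ?_
    refine Fr.sub_iff.2 fun t q3 hq3 ht => Fr.dense fun q4 hq4 => ?_
    obtain ⟨q5, hq5, n, h3, hn⟩ := fvN_ex (Fr.down ht hq4)
    refine ⟨q5, hq5, Fr.mem_left (Fr.symm hn) (Fr.natSet_iff.2 ?_)⟩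
    by_contra hnZ
    obtain ⟨q6, hq6, h4⟩ := fB_ex h3
    have h5 : Xᶜ ∈ q6.F o n := ((hq6.trans (hq5.trans (hq4.trans (hq3.trans
      (hs2.trans hs1))))).2.1 o n) (hXZ n hnZ)
    exact F_disj (Filter.mem_of_superset h4 hYX) h5

end Pool.Agent.FinGenTukey
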