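import Pool.Agent.Lib.MP_849e4d_lc.BV.MapF
import Pool.Agent.Lib.MP_849e4d_lc.Low

/-!
# MP_849e4d_lc: `[P(ω)]^{<ω}` is not Tukey reducible to `U`
-/

set_option autoImplicit false

namespace Pool.Agent.FinGenTukey

open Pool.Agent.StarRoth.BV Pool.Agent.MPa4e7db Pool.Agent.Lib.SymModel
open Pool.Agent.Lib.MP_849e4d_lc

/-! ### A well-order of type `ω₁` and distinct reals indexed by it -/

open Cardinal in
/-- A well-order of type `ω₁`. -/
abbrev OmOne : Type := (ℵ₁ : Cardinal.{0}).ord.ToType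

open Cardinal in
theorem mk_OmOne : #OmOne = ℵ₁ := by
  rw [mk_ord_toType]

open Cardinal in
theorem OmOne_Iio (i : OmOne) : (Set.Iio i).Countable := by
  rw [← le_aleph0_iff_set_countable]
  have h : Cardinal.ord #OmOne = Ordinal.type (α := OmOne) (· < ·) := by
    rw [mk_OmOne, Ordinal.type_toType]
  have := Cardinal.mk_Iio_lt i h
  rw [mk_OmOne] at this
  exact Order.lt_succ_iff.1 (by rwa [succ_aleph0])

open Cardinal in
instance : Uncountable OmOne := by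
  rw [← aleph0_lt_mk_iff, mk_OmOne]
  exact aleph0_lt_aleph_one

open Cardinal in
theorem exists_reals : ∃ x : OmOne → Set ℕ, Function.Injective x := by
  have h1 : #OmOne ≤ #(Set ℕ) := by
    rw [mk_OmOne, mk_set, mk_nat]
    exact aleph_one_le_continuum
  obtain ⟨e⟩ := h1
  exact ⟨e, e.injective⟩

section

variable {P : Type} [Preorder P]

theorem mem_upair {p : P} {z x y : BName (RO P)} (h : p ∈ memB z (upair x y)) :
    ∃ q ≤ p, q ∈ eqB z x ∨ q ∈ eqB z y := by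
  rw [memB_upair] at h
  exact RO.mem_sup.1 h p le_rfl

theorem self_mem_upair (p : P) (x : BName (RO P)) : p ∈ memB x (upair x x) := by
  rw [memB_upair, sup_idem]
  exact Fr.refl p x

/-- A singleton of a ground model set is a finite set of subsets of `ω`. -/
theorem singleton_finFam (p : P) (X : Set ℕ) :
    p ∈ isFinFamB (upair (natSetN (RO P) X) (natSetN (RO P) X)) omegaN := by
  refine ⟨?_, ?_⟩
  · refine RO.mem_iInf.2 fun x => RO.mem_himp.2 fun q _ hq => Fr.dense fun r hr => ?_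
    obtain ⟨s, hs, h | h⟩ := mem_upair (Fr.down hq hr)
    · exact ⟨s, hs, Fr.sub_trans (Fr.sub_of_eq h) (Fr.natSet_sub_omega s X)⟩
    · exact ⟨s, hs, Fr.sub_trans (Fr.sub_of_eq h) (Fr.natSet_sub_omega s X)⟩
  · refine Fr.iSup_mk (natN 1) ⟨Fr.omega_mk 1 (Fr.refl _ _), ?_⟩
    refine Fr.iSup_mk (graphN (ι := Unit) (fun _ => natSetN (RO P) X) (fun _ => natN 0)) ?_
    have hrel : ∀ (q : P) (a b : BName (RO P)),
        q ∈ relB (graphN (ι := Unit) (fun _ => natSetN (RO P) X) (fun _ => natN 0)) a b →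
        q ∈ eqB a (natSetN (RO P) X) ∧ q ∈ eqB b (natN 0) := by
      intro q a b h
      rw [relB_graphN] at h
      exact ⟨Fr.iSup_elim h fun _ _ _ h => h.1, Fr.iSup_elim h fun _ _ _ h => h.2⟩
    refine ⟨⟨?_, ?_⟩, ?_⟩
    · refine RO.prin_le_iff.1 (isFunOnB_graphN (ι := Unit) (fun _ => natSetN (RO P) X)
        (fun _ => natN 0) (upair (natSetN (RO P) X) (natSetN (RO P) X)) (RO.prin p) ?_ ?_)
      · intro t
        rw [memB_upair, sup_idem, iSup_const]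
      · intro _ _
        exact le_eqB_refl _ _
    · refine RO.mem_iInf.2 fun a => RO.mem_iInf.2 fun b => RO.mem_himp.2 fun q _ hq => ?_
      exact Fr.mem_left (Fr.symm (hrel q a b hq).2) (Fr.top (memB_natN_lt one_pos) q)
    · refine RO.mem_iInf.2 fun a => RO.mem_iInf.2 fun a' => RO.mem_iInf.2 fun b =>
        RO.mem_himp.2 fun q _ hq => ?_
      exact Fr.trans (hrel q a b hq.1).1 (Fr.symm (hrel q a' b hq.2).1)

end

variable {Λ : Type} {o : Λ}

theorem not_aboveTopB (p : Cond Λ o) : p ∉ aboveTopB (uN Λ o) omegaN := by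
  classical
  intro hp
  obtain ⟨p1, hp1, T, hp⟩ := Fr.iSup_ex hp
  obtain ⟨p0, hp0, h, hT, hh, hC⟩ := Fr.iSup_ex hp
  have hT' : ∀ s, ∀ r ≤ p0, r ∈ memB s T ↔ r ∈ isFinFamB s omegaN := fun s =>
    Fr.mem_iffB.1 (RO.mem_iInf.1 hT s)
  have hfun : p0 ∈ isFunOnB h (uN Λ o) := (Fr.into_iff.1 hh).1
  -- every ground model real is eventually in the values of `h`
  have claim : ∀ (x : Set ℕ), ∀ q ≤ p0, ∃ r ≤ q, ∃ D ∈ r.Z, ∀ X ⊆ D, ∀ s ≤ r, ∀ t,
      s ∈ zB X → s ∈ relB h (natSetN _ X) t → s ∈ memB (natSetN _ x) t := by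
    intro x q hq
    by_contra hno
    push Not at hno
    let A : Set ℕ → RO (Cond Λ o) := fun X =>
      zB X ⊓ ⨆ t, relB h (natSetN _ X) t ⊓ (memB (natSetN _ x) t)ᶜ
    have hCof : q ∈ isCofB (pN A) (uN Λ o) := by
      refine ⟨Fr.sub_iff.2 fun z r _ hz => Fr.dense fun r' hr' => ?_, RO.mem_iInf.2 fun y =>
        RO.mem_himp.2 fun r hr hy => Fr.dense fun r' hr' => ?_⟩
      · obtain ⟨s, hs, X, hX, hzX⟩ := pN_ex (Fr.down hz hr')
        exact ⟨s, hs, pN_mk X hX.1 hzX⟩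
      · obtain ⟨s, hs, D, hD, hyD⟩ := pN_ex (Fr.down hy hr')
        obtain ⟨s', hs', hD'⟩ := zB_ex hD
        obtain ⟨X, hXD, s2, hs2, t, h1, h2, h3⟩ := hno s' (hs'.trans (hs.trans (hr'.trans hr)))
          D hD'
        obtain ⟨s3, hs3, h4⟩ : ∃ s3 ≤ s2, s3 ∈ (memB (natSetN _ x) t)ᶜ := by
          by_contra hno2
          push Not at hno2
          apply h3
          refine Fr.dense fun a ha => ?_
          by_contra hno3
          push Not at hno3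
          exact hno2 a ha (RO.mem_compl.2 hno3)
        refine ⟨s3, hs3.trans (hs2.trans (hs'.trans hs)), Fr.iSup_mk (natSetN _ X)
          ⟨pN_iff.2 ⟨Fr.down h1 hs3, Fr.iSup_mk t ⟨Fr.down h2 hs3, h4⟩⟩, ?_⟩⟩
        exact Fr.sub_congr (Fr.refl _ _) (Fr.symm (Fr.down hyD (hs3.trans (hs2.trans hs'))))
          (Fr.natSet_sub.2 hXD)
    have h1 := Fr.himp_mp (Fr.down (RO.mem_iInf.1 hC (pN A)) hq) hCof
    have h2 := Fr.himp_mp (RO.mem_iInf.1 h1 (upair (natSetN _ x) (natSetN _ x)))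
      ((hT' _ q hq).2 (singleton_finFam q x))
    obtain ⟨q1, hq1, y, h2⟩ := Fr.iSup_ex h2
    obtain ⟨q2, hq2, t, hy, hyt, hst⟩ := Fr.iSup_ex h2
    obtain ⟨q3, hq3, X, hX, hyX⟩ := pN_ex hy
    obtain ⟨q4, hq4, t', ht', hxt'⟩ := Fr.iSup_ex hX.2
    have htt : q4 ∈ eqB t t' := by
      refine Fr.fun_unique (Fr.down hfun ((hq4.trans (hq3.trans (hq2.trans hq1))).trans hq))
        (Fr.rel_left (Fr.down hyX hq4) (Fr.down hyt (hq4.trans hq3))) ht'
    refine Fr.compl_mp hxt' (Fr.mem_right htt (Fr.sub_mp (Fr.down hst (hq4.trans hq3)) ?_))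
    exact self_mem_upair q4 _
  -- an `ω₁`-sequence
  obtain ⟨x, hx⟩ := exists_reals
  obtain ⟨S, hS, hS2⟩ := exists_desc OmOne_Iio p0 (fun ξ r => ∃ D ∈ r.Z, ∀ X ⊆ D, ∀ s ≤ r, ∀ t,
    s ∈ zB X → s ∈ relB h (natSetN _ X) t → s ∈ memB (natSetN _ (x ξ)) t)
    (fun ξ q hq => claim (x ξ) q hq)
  choose D hD hD2 using fun ξ => (hS2 ξ).2
  obtain ⟨δ, q, hq, X, hX, hinf⟩ := exists_low OmOne_Iio S hS D hD
  obtain ⟨ν0, hν0⟩ := hinf.nonempty
  have hq0 : q ≤ p0 := (hq ν0 hν0.1).trans (hS2 ν0).1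
  obtain ⟨q1, hq1, t, ht⟩ := Fr.iSup_ex (Fr.fun_total (Fr.down hfun hq0) (pN_iff.2 (zB_mk hX)))
  have htT : q1 ∈ isFinFamB t omegaN :=
    (hT' t q1 (hq1.trans hq0)).1 (Fr.into_mem (Fr.down hh (hq1.trans hq0)) ht)
  obtain ⟨q2, hq2, k, hk, hle⟩ := Fr.iSup_ex htT.2
  obtain ⟨q3, hq3, j, hj⟩ := Fr.iSup_ex hle
  obtain ⟨q4, hq4, n, hn⟩ := Fr.omega_ex (Fr.down hk hq3)
  obtain ⟨⟨hj1, hj2⟩, hj3⟩ := hj
  have hxt : ∀ ν, ν < δ ∧ X ⊆ D ν → q1 ∈ memB (natSetN _ (x ν)) t := by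
    rintro ν ⟨hν, hXν⟩
    exact hD2 ν X hXν q1 (hq1.trans (hq ν hν)) t (Fr.down (zB_mk hX) hq1) ht
  -- decide the injection on finitely many members
  have hdec : ∀ s : Finset OmOne, (∀ ν ∈ s, ν < δ ∧ X ⊆ D ν) → ∃ r ≤ q4, ∃ i : OmOne → ℕ,
      ∀ ν ∈ s, i ν < n ∧ r ∈ relB j (natSetN _ (x ν)) (natN (i ν)) := by
    intro s
    induction s using Finset.induction_on with
    | empty => exact fun _ => ⟨q4, le_rfl, fun _ => 0, fun ν hν => absurd hν (Finset.notMem_empty ν)⟩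
    | insert ν s hνs ih =>
      intro hs
      obtain ⟨r, hr, i, hi⟩ := ih (fun μ hμ => hs μ (Finset.mem_insert_of_mem hμ))
      have h1 : r ∈ memB (natSetN _ (x ν)) t :=
        Fr.down (hxt ν (hs ν (Finset.mem_insert_self _ _))) (hr.trans (hq4.trans (hq3.trans hq2)))
      obtain ⟨r1, hr1, y, hy⟩ := Fr.iSup_ex (Fr.fun_total (Fr.down hj1 (hr.trans hq4)) h1)
      have hyk : r1 ∈ memB y k := Fr.himp_mp (Fr.down (RO.mem_iInf.1 (RO.mem_iInf.1 hj2 _) _)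
        (hr1.trans (hr.trans hq4))) hy
      have hyn : r1 ∈ memB y (natSetN _ (Set.Iio n)) :=
        Fr.mem_right (Fr.trans (Fr.down hn (hr1.trans hr)) (Fr.natN_eq _ _)) hyk
      obtain ⟨r2, hr2, m, hm, hym⟩ := Fr.natSet_ex hyn
      refine ⟨r2, hr2.trans (hr1.trans hr), Function.update i ν m, ?_⟩
      intro μ hμ
      by_cases hμν : μ = ν
      · subst hμν
        rw [Function.update_self]
        exact ⟨hm, Fr.rel_right hym (Fr.down hy hr2)⟩
      · rw [Function.update_of_ne hμν]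
        have h2 := hi μ ((Finset.mem_insert.1 hμ).resolve_left hμν)
        exact ⟨h2.1, Fr.down h2.2 (hr2.trans hr1)⟩
  obtain ⟨s, hs, hcard⟩ := hinf.exists_subset_card_eq (n + 1)
  obtain ⟨r, hr, i, hi⟩ := hdec s (fun ν hν => hs hν)
  obtain ⟨ν, hν, μ, hμ, hne, heq⟩ := Finset.exists_ne_map_eq_of_card_lt_of_maps_to
    (s := s) (t := Finset.range n) (f := i) (by rw [hcard, Finset.card_range]; omega)
    (fun ν hν => Finset.mem_coe.2 (Finset.mem_range.2 (hi ν hν).1))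
  apply hne
  apply hx
  have h1 := (hi ν hν).2
  have h2 := (hi μ hμ).2
  rw [← heq] at h2
  exact Fr.natSet_eq (Fr.himp_mp (Fr.down (RO.mem_iInf.1 (RO.mem_iInf.1 (RO.mem_iInf.1 hj3 _) _) _)
    (hr.trans hq4)) ⟨h1, h2⟩)

end Pool.Agent.FinGenTukey
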