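import Pool.Agent.Lib.MP_849e4d_lc.BV.MapF
import Pool.Agent.Lib.MP_849e4d_lc.Iter

/-!
# MP_849e4d_lc: `U` does not have finitely generated Tukey reductions
-/

set_option autoImplicit false

namespace Pool.Agent.FinGenTukey

open Pool.Agent.StarRoth.BV Pool.Agent.MPa4e7db Pool.Agent.Lib.SymModel
open Pool.Agent.Lib.MP_849e4d_lc

namespace Fr

variable {P : Type} [Preorder P] {p : P} {x y z : BName (RO P)} {X Y : Set ℕ}

theorem inter_mk (hx : p ∈ eqB x (natSetN _ X)) (hy : p ∈ eqB y (natSetN _ Y)) :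
    p ∈ isInterB (natSetN _ (X ∩ Y)) x y := by
  refine inter_iff.2 fun t q hq => ?_
  constructor
  · intro h
    exact ⟨mem_right (symm (down hx hq)) (sub_mp (natSet_sub.2 Set.inter_subset_left) h),
      mem_right (symm (down hy hq)) (sub_mp (natSet_sub.2 Set.inter_subset_right) h)⟩
  · rintro ⟨h1, h2⟩
    refine dense fun q' hq' => ?_
    obtain ⟨r, hr, n, hn, hrn⟩ := natSet_ex (mem_right (down hx (hq'.trans hq)) (down h1 hq'))
    have h3 : r ∈ memB t (natSetN _ Y) :=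
      mem_right (down hy (hr.trans (hq'.trans hq))) (down h2 (hr.trans hq'))
    exact ⟨r, hr, mem_left (symm hrn) (natSet_iff.2 ⟨hn, natSet_iff.1 (mem_left hrn h3)⟩)⟩

theorem inter_unique {z' : BName (RO P)} (h : p ∈ isInterB z x y) (h' : p ∈ isInterB z' x y) :
    p ∈ eqB z z' := by
  rw [inter_iff] at h h'
  exact eq_iff.2 fun t q hq => (h t q hq).trans (h' t q hq).symm

end Fr

variable {Λ : Type} [Uncountable Λ] {o : Λ}

theorem not_finGen (p : Cond Λ o) : p ∉ finGenB (uN Λ o) omegaN := by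
  classical
  intro hp
  have h0 := Fr.himp_mp (RO.mem_iInf.1 (RO.mem_iInf.1 hp (vN Λ o)) (fN Λ o))
    ⟨vN_ultra p, fN_monCof p⟩
  obtain ⟨q0, hq0, C, h0⟩ := Fr.iSup_ex h0
  obtain ⟨q1, hq1, g, hC, hg, hU⟩ := Fr.iSup_ex h0
  obtain ⟨q2, hq2, F, hF, hgF, hmon⟩ := Fr.iSup_ex hg
  have hF' : ∀ s, ∀ r ≤ q2, r ∈ memB s F ↔ r ∈ ⨆ k, memB k omegaN ⊓ subB s k := fun s =>
    Fr.mem_iffB.1 (RO.mem_iInf.1 hF s)
  have hmemF : ∀ (s : Finset ℕ) (r : Cond Λ o), r ≤ q2 →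
      r ∈ memB (natSetN _ (s : Set ℕ)) F := by
    intro s r hr
    rw [hF' _ r hr]
    refine Fr.iSup_mk (natN (s.sup id + 1)) ⟨Fr.omega_mk _ (Fr.refl _ _), ?_⟩
    refine Fr.sub_congr (Fr.refl _ _) (Fr.symm (Fr.natN_eq r _)) (Fr.natSet_sub.2 ?_)
    intro x hx
    exact Nat.lt_succ_of_le (Finset.le_sup (f := id) hx)
  -- decide the map `g`
  let b : ℕ → RO (Cond Λ o) := fun n =>
    match (Encodable.decode n : Option (Finset ℕ × ℕ)) with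
    | some x => ⨆ t, relB g (natSetN _ (x.1 : Set ℕ)) t ⊓ memB (natN x.2) t
    | none => ⊥
  have hb : ∀ x : Finset ℕ × ℕ, b (Encodable.encode x) =
      ⨆ t, relB g (natSetN _ (x.1 : Set ℕ)) t ⊓ memB (natN x.2) t := by
    intro x
    simp only [b, Encodable.encodek]
  obtain ⟨q3, hq3, E, hE1, hE2⟩ := cond_closed.decide_nat b q2
  obtain ⟨r, hr, hdiag⟩ := q3.exists_diag (Gop E) (Gop_mono E)
  have hr2 : r ≤ q2 := hr.trans hq3
  have hr1 : r ≤ q1 := hr2.trans hq2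
  -- members of `C`
  have hCex : ∀ (a : Cond Λ o) (X : Set ℕ), a ≤ r → X ∈ a.Z → ∃ c ≤ a, ∃ y, ∃ Y : Set ℕ,
      c ∈ memB y C ∧ c ∈ eqB y (natSetN _ Y) ∧ Y ⊆ X ∧ Y ∈ c.Z := by
    intro a X ha hX
    have h1 := RO.mem_iInf.1 hC.2 (natSetN _ X)
    have h2 := Fr.himp_mp (Fr.down h1 (ha.trans hr1)) (pN_iff.2 (zB_mk hX))
    obtain ⟨s1, hs1, y, hy, hyX⟩ := Fr.iSup_ex h2
    obtain ⟨s2, hs2, Y, hY, hyY⟩ := pN_ex (Fr.sub_mp (Fr.down hC.1 (hs1.trans (ha.trans hr1))) hy)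
    have hYX : Y ⊆ X := Fr.natSet_sub.1 (Fr.sub_congr hyY (Fr.refl _ _) (Fr.down hyX hs2))
    obtain ⟨s3, hs3, hY3⟩ := zB_ex hY
    exact ⟨s3, hs3.trans (hs2.trans hs1), y, Y, Fr.down hy (hs3.trans hs2), Fr.down hyY hs3, hYX,
      hY3⟩
  -- the value at members of `C`
  have hval : ∀ (a : Cond Λ o) (y : BName (RO (Cond Λ o))) (Y : Set ℕ), a ≤ q1 → a ∈ memB y C →
      a ∈ eqB y (natSetN _ Y) → Y ∈ a.Z → ∀ m, ∀ c ≤ a, c ∈ memB m (fvN Λ o Y) ↔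
        c ∈ ⨆ k, ⨆ s, ⨆ b, memB k omegaN ⊓ (isInterB s y k ⊓ (relB g s b ⊓ memB m b)) := by
    intro a y Y ha hy hyY hY m
    have h1 := RO.mem_iInf.1 (RO.mem_iInf.1 hU y) (fvN Λ o Y)
    have h2 := Fr.himp_mp (Fr.down h1 ha) ⟨hy, fN_mk Y (zB_mk hY) hyY (Fr.refl _ _)⟩
    exact Fr.mem_iffB.1 (RO.mem_iInf.1 h2 m)
  rcases hdiag with ⟨Y, hY, hYG⟩ | ⟨C', X0, hX0, hXC, hno⟩
  · obtain ⟨c, hc, y, X, hyC, hyX, hXY, hXZ⟩ := hCex r Y le_rfl hY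
    obtain ⟨m, hm⟩ := (c.goodZ X hXZ o c.ho).nonempty
    have hm : X ∈ c.F o m := hm
    have h1 := (hval c y X (hc.trans hr1) hyC hyX hXZ (natN m) c le_rfl).1
      (fvN_iff.2 (fB_mk hm))
    obtain ⟨c1, hc1, k, h1⟩ := Fr.iSup_ex h1
    obtain ⟨c2, hc2, s, h1⟩ := Fr.iSup_ex h1
    obtain ⟨c3, hc3, t, hk, hs, hgt, hmt⟩ := Fr.iSup_ex h1
    obtain ⟨c4, hc4, k0, hk0⟩ := Fr.omega_ex hk
    have hfin : (X ∩ Set.Iio k0).Finite := (Set.finite_Iio k0).inter_of_right X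
    have hs2 : c4 ∈ eqB s (natSetN _ (X ∩ Set.Iio k0)) :=
      Fr.inter_unique (Fr.down hs hc4) (Fr.inter_mk
        (Fr.down hyX (hc4.trans (hc3.trans (hc2.trans hc1)))) (Fr.trans hk0 (Fr.natN_eq c4 k0)))
    have hcoe : (hfin.toFinset : Set ℕ) = X ∩ Set.Iio k0 := by simp
    have hEm : Encodable.encode (hfin.toFinset, m) ∈ E := by
      by_contra hne
      have h2 := hE2 _ hne
      rw [hb] at h2
      refine Fr.compl_mp (Fr.down h2 ((hc4.trans (hc3.trans (hc2.trans (hc1.trans hc)))).trans hr))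
        (Fr.iSup_mk t ⟨?_, Fr.down hmt hc4⟩)
      rw [hcoe]
      exact Fr.rel_left hs2 (Fr.down hgt hc4)
    have hsub : (hfin.toFinset : Set ℕ) ⊆ Y := by
      rw [hcoe]
      exact Set.inter_subset_left.trans hXY
    have hmG : m ∈ Gop E Y := ⟨hfin.toFinset, hsub, hEm⟩
    exact F_disj (Filter.mem_of_superset hm hXY) (hc.2.1 o m (hYG m hmG))
  · obtain ⟨c, hc, y, Y, hyC, hyY, hYX, hYZ⟩ := hCex r X0 le_rfl hX0
    refine hno c hc Y hYZ ?_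
    rintro m ⟨s0, hs0, hEm⟩
    have h1 := hE1 _ hEm
    rw [hb] at h1
    obtain ⟨c1, hc1, t, hgt, hmt⟩ := Fr.iSup_ex (Fr.down h1 (hc.trans hr))
    -- a larger initial segment
    let k0 : ℕ := s0.sup id + 1
    have hk0 : ∀ x ∈ s0, x < k0 := fun x hx => Nat.lt_succ_of_le (Finset.le_sup (f := id) hx)
    have hfin : (Y ∩ Set.Iio k0).Finite := (Set.finite_Iio k0).inter_of_right Y
    have hcoe : (hfin.toFinset : Set ℕ) = Y ∩ Set.Iio k0 := by simp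
    have hc1q : c1 ≤ q2 := hc1.trans (hc.trans hr2)
    obtain ⟨c2, hc2, t', hgt'⟩ := Fr.iSup_ex (Fr.fun_total
      (Fr.down (Fr.into_iff.1 hgF).1 hc1q) (hmemF hfin.toFinset c1 hc1q))
    have htt : c2 ∈ subB t t' := by
      have h2 := RO.mem_iInf.1 (RO.mem_iInf.1 (RO.mem_iInf.1 (RO.mem_iInf.1 hmon
        (natSetN _ (s0 : Set ℕ))) (natSetN _ (hfin.toFinset : Set ℕ))) t) t'
      refine Fr.himp_mp (Fr.down h2 (hc2.trans hc1q)) ⟨Fr.down hgt hc2, hgt', ?_⟩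
      refine Fr.natSet_sub.2 ?_
      rw [hcoe]
      intro x hx
      exact ⟨hs0 hx, hk0 x hx⟩
    have hm' : c2 ∈ memB (natN m) (fvN Λ o Y) := by
      refine (hval c y Y (hc.trans hr1) hyC hyY hYZ (natN m) c2 (hc2.trans hc1)).2 ?_
      refine Fr.iSup_mk (natN k0) (Fr.iSup_mk (natSetN _ (hfin.toFinset : Set ℕ))
        (Fr.iSup_mk t' ⟨Fr.omega_mk _ (Fr.refl _ _), ?_, hgt', Fr.sub_mp htt (Fr.down hmt hc2)⟩))
      rw [hcoe]
      exact Fr.inter_mk (Fr.down hyY (hc2.trans hc1)) (Fr.natN_eq _ _)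
    obtain ⟨c3, hc3, h3⟩ := fB_ex (fvN_iff.1 hm')
    by_contra hmC
    have h4 : X0ᶜ ∈ c3.F o m := ((hc3.trans (hc2.trans (hc1.trans hc))).2.1 o m) (hXC m hmC)
    exact F_disj (Filter.mem_of_superset h3 hYX) h4

end Pool.Agent.FinGenTukey
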