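import Pool.Agent.Lib.MP_849e4d_lc.BV.NotFG

/-!
# MP_849e4d_lc: `V` is not generated by any finitely generated map on `U`
-/

set_option autoImplicit false

namespace Pool.Agent.FinGenTukey

open Pool.Agent.StarRoth.BV Pool.Agent.MPa4e7db Pool.Agent.Lib.SymModel
open Pool.Agent.Lib.MP_849e4d_lc

variable {Λ : Type} {o : Λ}

/-- Below a condition forcing that `g` is a monotone map on the finite sets, some condition
decides `g`: it is coded by a set `E` of the ground model. -/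
theorem decide_monFin {q : Cond Λ o} {g : BName (RO (Cond Λ o))}
    (hg : q ∈ isMonFinB g omegaN) : ∃ r ≤ q, ∃ E : Set ℕ, ∀ c ≤ r,
      ∀ (y a : BName (RO (Cond Λ o))) (Y : Set ℕ), c ∈ eqB y (natSetN _ Y) →
        (c ∈ isUnionB a g y omegaN ↔ c ∈ eqB a (natSetN _ (Gop E Y))) := by
  classical
  obtain ⟨q2, hq2, F, hF, hgF, hmon⟩ := Fr.iSup_ex hg
  have hF' : ∀ s, ∀ r ≤ q2, r ∈ memB s F ↔ r ∈ ⨆ k, memB k omegaN ⊓ subB s k := fun s =>
    Fr.mem_iffB.1 (RO.mem_iInf.1 hF s)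
  have hmemF : ∀ (s : Finset ℕ) (r : Cond Λ o), r ≤ q2 →
      r ∈ memB (natSetN _ (s : Set ℕ)) F := by
    intro s r hr
    rw [hF' _ r hr]
    refine Fr.iSup_mk (natN (s.sup id + 1)) ⟨Fr.omega_mk _ (Fr.refl _ _), ?_⟩
    refine Fr.sub_congr (Fr.refl _ _) (Fr.symm (Fr.natN_eq r _)) (Fr.natSet_sub.2 ?_)
    intro x hx
    exact Nat.lt_succ_of_le (Finset.le_sup (f := id) hx)
  let b : ℕ → RO (Cond Λ o) := fun n =>
    match (Encodable.decode n : Option (Finset ℕ × ℕ)) with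
    | some x => ⨆ t, relB g (natSetN _ (x.1 : Set ℕ)) t ⊓ memB (natN x.2) t
    | none => ⊥
  have hb : ∀ x : Finset ℕ × ℕ, b (Encodable.encode x) =
      ⨆ t, relB g (natSetN _ (x.1 : Set ℕ)) t ⊓ memB (natN x.2) t := by
    intro x
    simp only [b, Encodable.encodek]
  obtain ⟨q3, hq3, E, hE1, hE2⟩ := cond_closed.decide_nat b q2
  -- the values are subsets of `ω`
  have hval : ∀ c ≤ q2, ∀ s t, c ∈ relB g s t → c ∈ subB t omegaN := by
    intro c hc s t hst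
    have h1 : c ∈ memB t F := Fr.into_mem (Fr.down hgF hc) hst
    rw [hF' _ c hc] at h1
    refine Fr.iSup_elim h1 fun c1 hc1 k hk => Fr.dense fun c2 hc2 => ?_
    obtain ⟨c3, hc3, k0, hk0⟩ := Fr.omega_ex (Fr.down hk.1 hc2)
    refine ⟨c3, hc3, Fr.sub_trans (Fr.down hk.2 (hc3.trans hc2)) ?_⟩
    exact Fr.sub_trans (Fr.sub_of_eq (Fr.trans hk0 (Fr.natN_eq _ _))) (Fr.natSet_sub_omega _ _)
  -- the union
  have hun : ∀ c ≤ q3, ∀ (y : BName (RO (Cond Λ o))) (Y : Set ℕ), c ∈ eqB y (natSetN _ Y) →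
      ∀ m : BName (RO (Cond Λ o)), (c ∈ ⨆ k, ⨆ s, ⨆ b, memB k omegaN ⊓
        (isInterB s y k ⊓ (relB g s b ⊓ memB m b))) ↔ c ∈ memB m (natSetN _ (Gop E Y)) := by
    intro c hc y Y hyY m
    constructor
    · intro h
      refine Fr.iSup_elim h fun c1 hc1 k h => Fr.iSup_elim h fun c2 hc2 s h =>
        Fr.iSup_elim h fun c3 hc3 t h => Fr.dense fun c4 hc4 => ?_
      obtain ⟨hk, hs, hgt, hmt⟩ := h
      have hc4q : c4 ≤ q3 := hc4.trans (hc3.trans (hc2.trans (hc1.trans hc)))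
      obtain ⟨c5, hc5, k0, hk0⟩ := Fr.omega_ex (Fr.down hk hc4)
      have hmo : c5 ∈ memB m omegaN := Fr.sub_mp
        (hval c5 ((hc5.trans hc4q).trans hq3) s t (Fr.down hgt (hc5.trans hc4)))
        (Fr.down hmt (hc5.trans hc4))
      obtain ⟨c6, hc6, m0, hm0⟩ := Fr.omega_ex hmo
      have hc6c : c6 ≤ c := hc6.trans (hc5.trans (hc4.trans (hc3.trans (hc2.trans hc1))))
      have hfin : (Y ∩ Set.Iio k0).Finite := (Set.finite_Iio k0).inter_of_right Y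
      have hs2 : c6 ∈ eqB s (natSetN _ (Y ∩ Set.Iio k0)) :=
        Fr.inter_unique (Fr.down hs (hc6.trans (hc5.trans hc4))) (Fr.inter_mk
          (Fr.down hyY hc6c) (Fr.trans (Fr.down hk0 hc6) (Fr.natN_eq c6 k0)))
      have hcoe : (hfin.toFinset : Set ℕ) = Y ∩ Set.Iio k0 := by simp
      refine ⟨c6, hc6.trans hc5, Fr.mem_left (Fr.symm hm0) (Fr.natSet_iff.2 ?_)⟩
      refine ⟨hfin.toFinset, ?_, ?_⟩
      · rw [hcoe]; exact Set.inter_subset_left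
      · by_contra hne
        have h2 := hE2 _ hne
        rw [hb] at h2
        refine Fr.compl_mp (Fr.down h2 (hc6c.trans hc)) (Fr.iSup_mk t ⟨?_, ?_⟩)
        · rw [hcoe]
          exact Fr.rel_left hs2 (Fr.down hgt (hc6.trans (hc5.trans hc4)))
        · exact Fr.mem_left hm0 (Fr.down hmt (hc6.trans (hc5.trans hc4)))
    · intro h
      refine Fr.dense fun c1 hc1 => ?_
      obtain ⟨c2, hc2, m0, ⟨s0, hs0, hEm⟩, hm0⟩ := Fr.natSet_ex (Fr.down h hc1)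
      have hc2q : c2 ≤ q3 := hc2.trans (hc1.trans hc)
      have h1 := hE1 _ hEm
      rw [hb] at h1
      obtain ⟨c3, hc3, t, hgt, hmt⟩ := Fr.iSup_ex (Fr.down h1 hc2q)
      let k0 : ℕ := s0.sup id + 1
      have hk0 : ∀ x ∈ s0, x < k0 := fun x hx => Nat.lt_succ_of_le (Finset.le_sup (f := id) hx)
      have hfin : (Y ∩ Set.Iio k0).Finite := (Set.finite_Iio k0).inter_of_right Y
      have hcoe : (hfin.toFinset : Set ℕ) = Y ∩ Set.Iio k0 := by simp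
      have hc3q : c3 ≤ q2 := (hc3.trans hc2q).trans hq3
      obtain ⟨c4, hc4, t', hgt'⟩ := Fr.iSup_ex (Fr.fun_total
        (Fr.down (Fr.into_iff.1 hgF).1 hc3q) (hmemF hfin.toFinset c3 hc3q))
      have htt : c4 ∈ subB t t' := by
        have h2 := RO.mem_iInf.1 (RO.mem_iInf.1 (RO.mem_iInf.1 (RO.mem_iInf.1 hmon
          (natSetN _ (s0 : Set ℕ))) (natSetN _ (hfin.toFinset : Set ℕ))) t) t'
        refine Fr.himp_mp (Fr.down h2 (hc4.trans hc3q)) ⟨Fr.down hgt hc4, hgt', ?_⟩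
        refine Fr.natSet_sub.2 ?_
        rw [hcoe]
        intro x hx
        exact ⟨hs0 hx, hk0 x hx⟩
      refine ⟨c4, hc4.trans (hc3.trans hc2), ?_⟩
      refine Fr.iSup_mk (natN k0) (Fr.iSup_mk (natSetN _ (hfin.toFinset : Set ℕ))
        (Fr.iSup_mk t' ⟨Fr.omega_mk _ (Fr.refl _ _), ?_, hgt', ?_⟩))
      · rw [hcoe]
        exact Fr.inter_mk (Fr.down hyY (hc4.trans (hc3.trans (hc2.trans hc1)))) (Fr.natN_eq _ _)
      · exact Fr.sub_mp htt (Fr.mem_left (Fr.symm (Fr.down hm0 (hc4.trans hc3)))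
          (Fr.down hmt hc4))
  refine ⟨q3, hq3.trans hq2, E, ?_⟩
  intro c hc y a Y hyY
  constructor
  · intro h
    refine Fr.eq_iff.2 fun m d hd => ?_
    rw [Fr.mem_iffB.1 (RO.mem_iInf.1 h m) d hd]
    exact hun d (hd.trans hc) y Y (Fr.down hyY hd) m
  · intro h
    refine RO.mem_iInf.2 fun m => Fr.mem_iffB.2 fun d hd => ?_
    rw [Fr.eq_iff.1 h m d hd]
    exact (hun d (hd.trans hc) y Y (Fr.down hyY hd) m).symm

theorem notGen_mem [Uncountable Λ] (p : Cond Λ o) : p ∈ notGenB (uN Λ o) omegaN := by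
  refine Fr.iSup_mk (vN Λ o) (Fr.iSup_mk (fN Λ o) ⟨vN_ultra p, fN_monCof p, ?_⟩)
  refine RO.mem_compl.2 fun q _ hq => ?_
  obtain ⟨q1, hq1, g, hg, hgen⟩ := Fr.iSup_ex hq
  obtain ⟨q2, hq2, E, hE⟩ := decide_monFin hg
  have hgen' : ∀ z, ∀ r ≤ q1, r ∈ memB z (vN Λ o) ↔ r ∈ subB z omegaN ⊓ ⨆ x, ⨆ a,
      memB x (uN Λ o) ⊓ (isUnionB a g x omegaN ⊓ subB a z) := fun z =>
    Fr.mem_iffB.1 (RO.mem_iInf.1 hgen z)
  obtain ⟨r, hr, hdiag⟩ := q2.exists_diag (Gop E) (Gop_mono E)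
  have hr1 : r ≤ q1 := hr.trans hq2
  rcases hdiag with ⟨Y, hY, hYG⟩ | ⟨C, X0, hX0, hXC, hno⟩
  · -- `G(Y)` is in `V`
    have h1 : r ∈ memB (natSetN _ (Gop E Y)) (vN Λ o) := by
      rw [hgen' _ r hr1]
      refine ⟨Fr.natSet_sub_omega _ _, Fr.iSup_mk (natSetN _ Y)
        (Fr.iSup_mk (natSetN _ (Gop E Y)) ⟨pN_iff.2 (zB_mk hY), ?_, Fr.sub_refl _ _⟩)⟩
      exact (hE r hr _ _ Y (Fr.refl _ _)).2 (Fr.refl _ _)
    obtain ⟨s, hs, X, hX, hXG⟩ := vB_ex (pN_iff.1 h1)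
    obtain ⟨m, hm⟩ := (s.goodZ (X ∩ Y) (Filter.inter_mem hX (hs.2.2 hY)) o s.ho).nonempty
    have hm : X ∩ Y ∈ s.F o m := hm
    by_cases hmG : m ∈ Gop E Y
    · exact F_disj (Filter.mem_of_superset hm Set.inter_subset_right) (hs.2.1 o m (hYG m hmG))
    · exact F_disj (Filter.mem_of_superset hm Set.inter_subset_left) (hXG m hmG)
  · have h1 : r ∈ memB (natSetN _ C) (vN Λ o) := pN_iff.2 (vB_mk X0 hX0 hXC)
    rw [hgen' _ r hr1] at h1
    obtain ⟨r1, hr1', x, h2⟩ := Fr.iSup_ex h1.2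
    obtain ⟨r2, hr2, a, hx, ha, hsub⟩ := Fr.iSup_ex h2
    obtain ⟨r3, hr3, X, hX, hxX⟩ := pN_ex hx
    obtain ⟨r4, hr4, hX4⟩ := zB_ex hX
    have hr4r : r4 ≤ r := hr4.trans (hr3.trans (hr2.trans hr1'))
    refine hno r4 hr4r X hX4 ?_
    have h3 := (hE r4 (hr4r.trans hr) x a X (Fr.down hxX hr4)).1 (Fr.down ha (hr4.trans hr3))
    exact Fr.natSet_sub.1 (Fr.sub_congr h3 (Fr.refl _ _) (Fr.down hsub (hr4.trans hr3)))

end Pool.Agent.FinGenTukey
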