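import Pool.Agent.Lib.MP_849e4d_lc.BV.Force
import Pool.Agent.Lib.MP_849e4d_lc.Seq

/-!
# MP_849e4d_lc: the generic ultrafilters `U`, `V` and the map `f`
-/

set_option autoImplicit false

namespace Pool.Agent.FinGenTukey

open Pool.Agent.StarRoth.BV Pool.Agent.MPa4e7db Pool.Agent.Lib.SymModel
open Pool.Agent.Lib.MP_849e4d_lc

section

variable {P : Type} [Preorder P]

/-- A criterion for names of ultrafilters. -/
theorem ultra_of (hP : CtblClosed P) (A : Set ℕ → RO P) (h1 : ∀ p, p ∈ A Set.univ)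
    (h2 : ∀ p, p ∉ A ∅) (h3 : ∀ X Y p, X ⊆ Y → p ∈ A X → p ∈ A Y)
    (h4 : ∀ X Y p, p ∈ A X → p ∈ A Y → p ∈ A (X ∩ Y))
    (h5 : ∀ X p, ∃ q ≤ p, q ∈ A X ∨ q ∈ A Xᶜ) (p : P) :
    p ∈ isUltrafilterB (pN A) omegaN := by
  refine ⟨⟨⟨⟨⟨?_, ?_⟩, ?_⟩, ?_⟩, ?_⟩, ?_⟩
  · exact RO.mem_iInf.2 fun x => RO.mem_himp.2 fun q _ hq => pN_sub_omega hq
  · exact pN_mk Set.univ (h1 p) (Fr.omega_eq p)
  · refine RO.mem_iInf.2 fun e => RO.mem_himp.2 fun q _ hq => RO.mem_compl.2 fun r hr hre => ?_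
    obtain ⟨s, hs, X, hX, hsX⟩ := pN_ex hre
    have hX0 : X = ∅ := by
      rw [Set.eq_empty_iff_forall_notMem]
      intro n hn
      have h6 : s ∈ memB (natN n) e := Fr.mem_right (Fr.symm hsX) (Fr.natSet_iff.2 hn)
      exact Fr.compl_mp (Fr.down (RO.mem_iInf.1 hq (natN n)) (hs.trans hr)) h6
    rw [hX0] at hX
    exact h2 s hX
  · refine RO.mem_iInf.2 fun x => RO.mem_iInf.2 fun y => RO.mem_himp.2 fun q _ hq => ?_
    obtain ⟨⟨hx, hxy⟩, hy⟩ := hq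
    refine Fr.dense fun q' hq' => ?_
    obtain ⟨r, hr, X, hX, hrX⟩ := pN_ex (Fr.down hx hq')
    obtain ⟨s, hs, Y, hY⟩ := hP.real (Fr.down hy (hr.trans hq'))
    have h6 : X ⊆ Y := Fr.natSet_sub.1 (Fr.sub_congr (Fr.down hrX hs) hY
      (Fr.down hxy (hs.trans (hr.trans hq'))))
    exact ⟨s, hs.trans hr, pN_mk Y (h3 X Y s h6 (Fr.down hX hs)) hY⟩
  · refine RO.mem_iInf.2 fun x => RO.mem_iInf.2 fun y => RO.mem_iInf.2 fun z =>
      RO.mem_himp.2 fun q _ hq => ?_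
    obtain ⟨⟨hx, hy⟩, hz⟩ := hq
    rw [Fr.inter_iff] at hz
    refine Fr.dense fun q' hq' => ?_
    obtain ⟨r, hr, X, hX, hrX⟩ := pN_ex (Fr.down hx hq')
    obtain ⟨s, hs, Y, hY, hsY⟩ := pN_ex (Fr.down hy (hr.trans hq'))
    refine ⟨s, hs.trans hr, pN_mk (X ∩ Y) (h4 X Y s (Fr.down hX hs) hY) ?_⟩
    refine Fr.eq_iff.2 fun t a ha => ?_
    rw [hz t a (ha.trans (hs.trans (hr.trans hq')))]
    constructor
    · rintro ⟨hax, hay⟩
      refine Fr.dense fun b hb => ?_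
      have hbx : b ∈ memB t (natSetN (RO P) X) := Fr.mem_right
        (Fr.down hrX (hb.trans (ha.trans hs))) (Fr.down hax hb)
      obtain ⟨c, hc, n, hn, hcn⟩ := Fr.natSet_ex hbx
      have hcy : c ∈ memB t (natSetN (RO P) Y) := Fr.mem_right
        (Fr.down hsY (hc.trans (hb.trans ha))) (Fr.down hay (hc.trans hb))
      have hnY : n ∈ Y := Fr.natSet_iff.1 (Fr.mem_left hcn hcy)
      exact ⟨c, hc, Fr.mem_left (Fr.symm hcn) (Fr.natSet_iff.2 ⟨hn, hnY⟩)⟩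
    · intro hat
      constructor
      · exact Fr.mem_right (Fr.symm (Fr.down hrX (ha.trans hs)))
          (Fr.sub_mp (Fr.natSet_sub.2 Set.inter_subset_left) hat)
      · exact Fr.mem_right (Fr.symm (Fr.down hsY ha))
          (Fr.sub_mp (Fr.natSet_sub.2 Set.inter_subset_right) hat)
  · refine RO.mem_iInf.2 fun x => RO.mem_iInf.2 fun y => RO.mem_himp.2 fun q _ hq => ?_
    obtain ⟨hx, hy⟩ := hq
    rw [Fr.diff_iff] at hy
    refine RO.mem_sup.2 fun q' hq' => ?_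
    obtain ⟨r, hr, X, hX⟩ := hP.real (Fr.down hx hq')
    obtain ⟨s, hs, h6⟩ := h5 X r
    rcases h6 with h6 | h6
    · exact ⟨s, hs.trans hr, Or.inl (pN_mk X h6 (Fr.down hX hs))⟩
    · refine ⟨s, hs.trans hr, Or.inr (pN_mk Xᶜ h6 ?_)⟩
      refine Fr.eq_iff.2 fun t a ha => ?_
      rw [hy t a (ha.trans (hs.trans (hr.trans hq')))]
      constructor
      · rintro ⟨hax, hay⟩
        refine Fr.dense fun b hb => ?_
        obtain ⟨c, hc, n, hn⟩ := Fr.omega_ex (Fr.down hax hb)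
        refine ⟨c, hc, Fr.mem_left (Fr.symm hn) (Fr.natSet_iff.2 fun hnX => ?_)⟩
        refine Fr.compl_mp (Fr.down hay (hc.trans hb)) ?_
        exact Fr.mem_left (Fr.symm hn) (Fr.mem_right
          (Fr.symm (Fr.down hX (hc.trans (hb.trans (ha.trans hs))))) (Fr.natSet_iff.2 hnX))
      · intro hat
        refine ⟨Fr.sub_mp (Fr.natSet_sub_omega a _) hat, RO.mem_compl.2 fun b hb hbx => ?_⟩
        obtain ⟨c, hc, n, hn, hcn⟩ := Fr.natSet_ex (Fr.down hat hb)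
        apply hn
        exact Fr.natSet_iff.1 (Fr.mem_left hcn (Fr.mem_right
          (Fr.down hX (hc.trans (hb.trans (ha.trans hs)))) (Fr.down hbx hc)))

end

variable {Λ : Type} {o : Λ}

theorem cond_closed : CtblClosed (Cond Λ o) := by
  intro s hs
  have hanti : ∀ m n, m ≤ n → s n ≤ s m := by
    intro m n hmn
    induction n, hmn using Nat.le_induction with
    | base => exact le_rfl
    | succ n _ ih => exact (hs n).trans ih
  obtain ⟨q, hq, -⟩ := Cond.exists_inf (Set.range s) (Set.countable_range s) (by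
    rintro _ ⟨m, rfl⟩ _ ⟨n, rfl⟩
    rcases le_total m n with h | h
    · exact Or.inr (hanti m n h)
    · exact Or.inl (hanti n m h))
  exact ⟨q, fun n => hq _ ⟨n, rfl⟩⟩

/-- The value of `X ∈ U`. -/
def zB (X : Set ℕ) : RO (Cond Λ o) :=
  RO.mkOf {p | X ∈ p.Z} (fun _ hp _ hq => hq.2.2 hp)

/-- The value of `X ∈ u_n`. -/
def fB (X : Set ℕ) (n : ℕ) : RO (Cond Λ o) :=
  RO.mkOf {p | X ∈ p.F o n} (fun _ hp _ hq => hq.2.1 o n hp)

/-- The value of `C ∈ V`. -/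
def vB (C : Set ℕ) : RO (Cond Λ o) :=
  RO.mkOf {p | ∃ X ∈ p.Z, ∀ n ∉ C, Xᶜ ∈ p.F o n}
    (fun _ ⟨X, hX, h⟩ _ hq => ⟨X, hq.2.2 hX, fun n hn => hq.2.1 o n (h n hn)⟩)

variable {p : Cond Λ o} {X Y C : Set ℕ} {n : ℕ}

theorem zB_ex (h : p ∈ zB X) : ∃ q ≤ p, X ∈ q.Z := h p le_rfl

theorem zB_mk (h : X ∈ p.Z) : p ∈ zB X := fun q hq => ⟨q, le_rfl, hq.2.2 h⟩

theorem fB_ex (h : p ∈ fB X n) : ∃ q ≤ p, X ∈ q.F o n := h p le_rfl

theorem fB_mk (h : X ∈ p.F o n) : p ∈ fB X n := fun q hq => ⟨q, le_rfl, hq.2.1 o n h⟩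

theorem vB_ex (h : p ∈ vB C) : ∃ q ≤ p, ∃ X ∈ q.Z, ∀ n ∉ C, Xᶜ ∈ q.F o n := h p le_rfl

theorem vB_mk (X : Set ℕ) (h : X ∈ p.Z) (h' : ∀ n ∉ C, Xᶜ ∈ p.F o n) : p ∈ vB C :=
  fun q hq => ⟨q, le_rfl, X, hq.2.2 h, fun n hn => hq.2.1 o n (h' n hn)⟩

theorem F_disj (h : X ∈ p.F o n) (h' : Xᶜ ∈ p.F o n) : False := by
  have h3 := Filter.inter_mem h h'
  rw [Set.inter_compl_self] at h3
  exact p.inf o n _ h3 Set.finite_empty

theorem Z_disj (h : X ∈ p.Z) (h' : Xᶜ ∈ p.Z) : False := by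
  have h3 := Filter.inter_mem h h'
  rw [Set.inter_compl_self] at h3
  exact p.infZ _ h3 Set.finite_empty

/-- The name of `U`. -/
noncomputable def uN (Λ : Type) (o : Λ) : BName (RO (Cond Λ o)) := pN zB

/-- The name of `V`. -/
noncomputable def vN (Λ : Type) (o : Λ) : BName (RO (Cond Λ o)) := pN vB

theorem zB_mono (h : X ⊆ Y) (h' : p ∈ zB X) : p ∈ zB Y := by
  refine Fr.dense fun q hq => ?_
  obtain ⟨r, hr, h1⟩ := zB_ex (Fr.down h' hq)
  exact ⟨r, hr, zB_mk (Filter.mem_of_superset h1 h)⟩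

theorem uN_ultra (p : Cond Λ o) : p ∈ isUltrafilterB (uN Λ o) omegaN := by
  refine ultra_of cond_closed zB (fun p => zB_mk Filter.univ_mem) ?_ ?_ ?_ ?_ p
  · intro p h
    obtain ⟨q, -, hq⟩ := zB_ex h
    exact q.infZ _ hq Set.finite_empty
  · intro X Y p h h'
    exact zB_mono h h'
  · intro X Y p h h'
    refine Fr.dense fun q hq => ?_
    obtain ⟨r, hr, h1⟩ := zB_ex (Fr.down h hq)
    obtain ⟨s, hs, h2⟩ := zB_ex (Fr.down h' (hr.trans hq))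
    exact ⟨s, hs.trans hr, zB_mk (Filter.inter_mem (hs.2.2 h1) h2)⟩
  · intro X p
    obtain ⟨q, hq, -, h⟩ := p.exists_decide X
    exact ⟨q, hq, h.imp zB_mk zB_mk⟩

theorem vN_ultra (p : Cond Λ o) : p ∈ isUltrafilterB (vN Λ o) omegaN := by
  refine ultra_of cond_closed vB (fun p => vB_mk Set.univ Filter.univ_mem
    (fun n hn => absurd (Set.mem_univ n) hn)) ?_ ?_ ?_ ?_ p
  · intro p h
    obtain ⟨q, -, X, hX, hq⟩ := vB_ex h
    obtain ⟨m, hm⟩ := (q.goodZ X hX o q.ho).nonempty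
    exact F_disj hm (hq m (Set.notMem_empty m))
  · intro X Y p h h'
    refine Fr.dense fun q hq => ?_
    obtain ⟨r, hr, X', hX', h1⟩ := vB_ex (Fr.down h' hq)
    exact ⟨r, hr, vB_mk X' hX' (fun n hn => h1 n (fun hn' => hn (h hn')))⟩
  · intro X Y p h h'
    refine Fr.dense fun q hq => ?_
    obtain ⟨r, hr, X', hX', h1⟩ := vB_ex (Fr.down h hq)
    obtain ⟨s, hs, Y', hY', h2⟩ := vB_ex (Fr.down h' (hr.trans hq))
    refine ⟨s, hs.trans hr, vB_mk (X' ∩ Y') (Filter.inter_mem (hs.2.2 hX') hY') ?_⟩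
    intro n hn
    rw [Set.compl_inter]
    by_cases hnX : n ∈ X
    · exact Filter.mem_of_superset (h2 n (fun hnY => hn ⟨hnX, hnY⟩)) Set.subset_union_right
    · exact Filter.mem_of_superset (hs.2.1 o n (h1 n hnX)) Set.subset_union_left
  · intro X p
    obtain ⟨q, hq, Y, hY, h⟩ := p.exists_trace X
    refine ⟨q, hq, ?_⟩
    rcases h with h | h
    · exact Or.inl (vB_mk Y hY h)
    · exact Or.inr (vB_mk Y hY (fun n hn => h n (by rwa [Set.mem_compl_iff, not_not] at hn)))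

end Pool.Agent.FinGenTukey
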